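import Pool.Agent.Helper44.FMet.Tilt

/-!
# Tilted sums over reduced words, extensions of reduced words
-/

namespace Pool.Agent.Helper44.FMet

open Pool.Agent.Helper62.FM

variable {r : ℕ}

/-- Number of reduced extensions of a nonempty reduced word. -/
theorem card_ext_eq {v : Wd r} (hv : v ≠ []) (hR : Rd v)
    [DecidablePred fun b : Lt r => Rd (v ++ [b])] :
    (Finset.univ.filter fun b : Lt r => Rd (v ++ [b])).card = 2 * r - 1 := by
  apply le_antisymm (card_ext hv)
  obtain ⟨u, a, rfl⟩ : ∃ u a, v = u ++ [a] :=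
    ⟨v.dropLast, v.getLast hv, (List.dropLast_append_getLast hv).symm⟩
  have h1 : Finset.univ.erase (bar a) ⊆ (Finset.univ.filter fun b : Lt r => Rd (u ++ [a] ++ [b])) := by
    intro b hb
    rw [Finset.mem_erase] at hb
    rw [Finset.mem_filter]
    refine ⟨Finset.mem_univ _, ?_⟩
    by_contra h
    exact hb.1 (bar_of_not_rd hR h)
  refine le_trans ?_ (Finset.card_le_card h1)
  rw [Finset.card_erase_of_mem (Finset.mem_univ _), Finset.card_univ, card_letters]

theorem card_ext_real (hr : 1 ≤ r) {v : Wd r} (hv : v ≠ []) (hR : Rd v)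
    [DecidablePred fun b : Lt r => Rd (v ++ [b])] :
    ((Finset.univ.filter fun b : Lt r => Rd (v ++ [b])).card : ℝ) = 2 * r - 1 := by
  rw [card_ext_eq hv hR, Nat.cast_sub (by omega)]
  push_cast; ring

theorem nonred_ge {t : ℝ} (ht : 0 < t) (hr : 1 ≤ r) {n : ℕ} (hn : 1 ≤ n) :
    (2 * r - 1) * Z (fun w : Wd r => Rd w) t n ≤
      Z (fun u : Wd r => Rd u.dropLast ∧ ¬ Rd u) t (n + 2) := by
  classical
  rw [Z_def, Z_def, sum_W_succ, sum_W_succ, Finset.mul_sum]
  apply Finset.sum_le_sum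
  intro v hv
  rw [mem_W] at hv
  have hv0 : v ≠ [] := by
    rintro rfl
    simp at hv; omega
  have hp := (rho_pos ht v).le
  have h1 : ∀ b : Lt r, (if Rd (v ++ [b]) then rho t v else 0) ≤
      (∑ c : Lt r, if Rd (v ++ [b] ++ [c]).dropLast ∧ ¬ Rd (v ++ [b] ++ [c]) then
      rho t (v ++ [b] ++ [c]) else 0) := by
    intro b
    have h2 : (if Rd (v ++ [b]) then rho t v else 0) ≤
        if Rd (v ++ [b] ++ [bar b]).dropLast ∧ ¬ Rd (v ++ [b] ++ [bar b]) then
          rho t (v ++ [b] ++ [bar b]) else 0 := by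
      rw [List.dropLast_concat, rho_bar]
      by_cases h : Rd (v ++ [b])
      · rw [if_pos h, if_pos]
        refine ⟨h, ?_⟩
        intro h3
        have h4 : Rd [b, bar b] := rd_part h3 ⟨v, [], by simp⟩
        rw [rd_cons_cons] at h4
        exact h4.1 rfl
      · rw [if_neg h]
        split_ifs
        · exact hp
        · exact le_rfl
    refine h2.trans (Finset.single_le_sum (f := fun c =>
      if Rd (v ++ [b] ++ [c]).dropLast ∧ ¬ Rd (v ++ [b] ++ [c]) then
      rho t (v ++ [b] ++ [c]) else 0) ?_ (Finset.mem_univ _))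
    intro c _
    split_ifs
    · exact (rho_pos ht _).le
    · exact le_rfl
  refine le_trans ?_ (Finset.sum_le_sum fun b _ => h1 b)
  by_cases hL : Rd v
  · rw [if_pos hL, ← Finset.sum_filter, Finset.sum_const, nsmul_eq_mul, card_ext_real hr hv0 hL]
  · rw [if_neg hL, mul_zero]
    apply Finset.sum_nonneg
    intro b _
    split_ifs
    · exact hp
    · exact le_rfl

theorem rd_pre (w : Wd r) (a : Lt r) (h : Rd (w ++ [a])) : Rd w :=
  rd_part h ⟨[], [a], by simp⟩

theorem Z_Rd_rec {t : ℝ} (ht : 0 < t) (hr : 1 ≤ r) {n : ℕ} (hn : 1 ≤ n) :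
    Z (fun w : Wd r => Rd w) t (n + 2) + (2 * r - 1) * Z (fun w : Wd r => Rd w) t n ≤
      A r t * Z (fun w : Wd r => Rd w) t (n + 1) := by
  have h1 := ext_sum (fun w : Wd r => Rd w) ht (n + 1) rd_pre
  have h2 := nonred_ge ht hr hn
  rw [h1]
  exact add_le_add le_rfl h2

theorem Z_Rd_succ_le {t : ℝ} (ht : 0 < t) (n : ℕ) :
    Z (fun w : Wd r => Rd w) t (n + 1) ≤ A r t * Z (fun w : Wd r => Rd w) t n := by
  have h1 := ext_sum (fun w : Wd r => Rd w) ht n rd_pre
  rw [h1]
  have := Z_nonneg (fun u : Wd r => Rd u.dropLast ∧ ¬ Rd u) ht (n + 1)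
  linarith

/-- Upper bound for the tilted sum over the reduced words. -/
theorem Z_Rd_le (hr : 2 ≤ r) {t lam : ℝ} (ht : 0 < t) (h1 : 2 * r - 1 ≤ lam)
    (h2 : A r t ≤ lam + (2 * r - 1) / lam) :
    ∃ C : ℝ, 0 < C ∧ ∀ n, Z (fun w : Wd r => Rd w) t n ≤ C * lam ^ n := by
  set z : ℕ → ℝ := fun n => Z (fun w : Wd r => Rd w) t n with hz
  have hr' : (2 : ℝ) ≤ r := by exact_mod_cast hr
  have hlam : 3 ≤ lam := by linarith
  have hlam0 : 0 < lam := by linarith
  have hz0 : z 0 = 1 := Z_zero _ FreeGroup.IsReduced.nil t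
  have hA : 0 < A r t := by unfold A; positivity
  have hz1 : z 1 ≤ A r t := by
    have := Z_Rd_succ_le (r := r) ht 0
    change z 1 ≤ A r t * z 0 at this
    rwa [hz0, mul_one] at this
  have hz2 : z 2 ≤ A r t ^ 2 := by
    have : z 2 ≤ A r t * z 1 := Z_Rd_succ_le (r := r) ht 1
    nlinarith
  have hnn : ∀ n, 0 ≤ z n := fun n => Z_nonneg _ ht n
  set μ : ℝ := (2 * r - 1) / lam with hμ
  have hμ0 : 0 < μ := div_pos (by linarith) hlam0
  have hμ1 : μ ≤ 1 := (div_le_one hlam0).2 h1
  have hμl : μ * lam = 2 * r - 1 := by rw [hμ]; field_simp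
  have hV : ∀ n, z (n + 2) - μ * z (n + 1) ≤ A r t ^ 2 * lam ^ n := by
    intro n
    induction n with
    | zero =>
      rw [pow_zero, mul_one]
      have := mul_nonneg hμ0.le (hnn 1)
      simp only [zero_add]
      linarith
    | succ n ih =>
      have h3 := Z_Rd_rec (r := r) ht (by omega) (n := n + 1) (by omega)
      change z (n + 1 + 2) + (2 * r - 1) * z (n + 1) ≤ A r t * z (n + 1 + 1) at h3
      have h4 : A r t * z (n + 1 + 1) ≤ (lam + μ) * z (n + 1 + 1) :=
        mul_le_mul_of_nonneg_right h2 (hnn _)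
      have h5 : lam * (z (n + 2) - μ * z (n + 1)) ≤ lam * (A r t ^ 2 * lam ^ n) :=
        mul_le_mul_of_nonneg_left ih hlam0.le
      have h6 : lam * (A r t ^ 2 * lam ^ n) = A r t ^ 2 * lam ^ (n + 1) := by ring
      rw [← hμl] at h3
      have e : n + 1 + 1 = n + 2 := rfl
      rw [e] at h3 h4
      have e2 : n + 1 + 2 = n + 2 + 1 := rfl
      rw [e2] at h3
      rw [← h6]
      have e3 : n + 1 + 2 = n + 3 := rfl
      rw [e, e3]
      change z (n + 3) - μ * z (n + 2) ≤ _
      have e4 : n + 2 + 1 = n + 3 := rfl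
      rw [e4] at h3
      nlinarith
  refine ⟨A r t ^ 2 + A r t + 1, by positivity, ?_⟩
  have main : ∀ n, z n ≤ (A r t ^ 2 + A r t + 1) * lam ^ n ∧
      z (n + 1) ≤ (A r t ^ 2 + A r t + 1) * lam ^ (n + 1) := by
    intro n
    induction n with
    | zero =>
      constructor
      · rw [hz0, pow_zero, mul_one]; nlinarith
      · rw [zero_add, pow_one]
        nlinarith [sq_nonneg (A r t)]
    | succ n ih =>
      refine ⟨ih.2, ?_⟩
      have h3 := hV n
      have h4 : μ * z (n + 1) ≤ (A r t ^ 2 + A r t + 1) * lam ^ (n + 1) := by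
        calc μ * z (n + 1) ≤ 1 * z (n + 1) := mul_le_mul_of_nonneg_right hμ1 (hnn _)
          _ ≤ _ := by rw [one_mul]; exact ih.2
      have h5 : 0 < lam ^ n := by positivity
      have h6 : lam ^ (n + 1) = lam ^ n * lam := pow_succ _ _
      have h7 : lam ^ (n + 1 + 1) = lam ^ n * lam * lam := by rw [pow_succ, pow_succ]
      have e : n + 1 + 1 = n + 2 := rfl
      rw [h7]
      rw [h6] at h4
      rw [e]
      have h8 : A r t ^ 2 * lam ^ n ≤ (A r t ^ 2 + A r t + 1) * lam ^ n :=
        mul_le_mul_of_nonneg_right (by linarith) h5.le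
      have h9 : (A r t ^ 2 + A r t + 1) * (lam ^ n * lam) + (A r t ^ 2 + A r t + 1) * lam ^ n ≤
          (A r t ^ 2 + A r t + 1) * (lam ^ n * lam * lam) := by
        have : lam ^ n * lam + lam ^ n ≤ lam ^ n * lam * lam := by
          have g1 : lam + 1 ≤ lam * lam := by nlinarith
          have g2 := mul_le_mul_of_nonneg_left g1 h5.le
          linarith
        nlinarith [mul_le_mul_of_nonneg_left this (show 0 ≤ A r t ^ 2 + A r t + 1 by positivity)]
      linarith
  intro n
  exact (main n).1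

end Pool.Agent.Helper44.FMet
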