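import Pool.Agent.Helper44.FMet.Near
import Pool.Agent.Helper44.FMet.Red

/-!
# Counting reduced words which avoid a family of forbidden words of length 7 and 8
-/

namespace Pool.Agent.Helper44.FMet

open Pool.Agent.Helper62.FM

variable {r : ℕ}

/-- Families of forbidden words. -/
structure ForbFam (F : Wd r → Prop) : Prop where
  len : ∀ w, F w → w.length = 7 ∨ w.length = 8
  red : ∀ w, F w → Rd w
  two : ∀ w, F w → ∀ k ∈ idx w, 2 ≤ cnt k w
  rep4 : ∀ w, F w → rep w = 4

/-- Reduced words avoiding `F`. -/
def Mav (F : Wd r → Prop) (w : Wd r) : Prop := Rd w ∧ ∀ f, f <:+: w → ¬ F f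

theorem Mav.part {F : Wd r → Prop} {u w : Wd r} (h : Mav F w) (hu : u <:+: w) : Mav F u :=
  ⟨rd_part h.1 hu, fun f hf => h.2 f (hf.trans hu)⟩

theorem rep_snoc (a : Lt r) (w : Wd r) : rep (w ++ [a]) = rep w + if a.1 ∈ idx w then 1 else 0 := by
  have h0 : idx (w ++ [a]) = insert a.1 (idx w) := by
    rw [idx_append]
    ext k
    simp [idx]
  unfold rep
  rw [h0, List.length_append, List.length_singleton]
  have h := card_idx_le w
  by_cases ha : a.1 ∈ idx w
  · rw [if_pos ha, Finset.insert_eq_of_mem ha]; omega
  · rw [if_neg ha, Finset.card_insert_of_notMem ha]; omega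

theorem mem_idx_of_two_left {x : Lt r} {w : Wd r} (h : 2 ≤ cnt x.1 (x :: w)) : x.1 ∈ idx w := by
  rw [← cnt_pos]
  rw [cnt_cons, if_pos rfl] at h
  omega

theorem mem_idx_of_two_right {x : Lt r} {w : Wd r} (h : 2 ≤ cnt x.1 (w ++ [x])) : x.1 ∈ idx w := by
  rw [← cnt_pos]
  rw [cnt_append] at h
  have : cnt x.1 [x] = 1 := by
    rw [cnt_cons, if_pos rfl]; simp [cnt]
  omega

/-- Overlapping forbidden words have at least five repeats. -/
theorem rep_overlap {F : Wd r → Prop} (hF : ForbFam F) {s τ1 τ2 : Wd r} (hs : s ≠ [])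
    (h1 : F (s ++ τ1)) (h2 : F (τ1 ++ τ2)) : 5 ≤ rep (s ++ (τ1 ++ τ2)) := by
  obtain ⟨x, s1, rfl⟩ := List.exists_cons_of_ne_nil hs
  have h3 := hF.two _ h1 x.1 (by rw [List.cons_append, idx_cons]; exact Finset.mem_insert_self _ _)
  rw [List.cons_append] at h3
  have h4 := mem_idx_of_two_left h3
  have h5 : x.1 ∈ idx (s1 ++ (τ1 ++ τ2)) := by
    rw [← List.append_assoc, idx_append]
    exact Finset.mem_union_left _ h4
  rw [List.cons_append, rep_cons, if_pos h5]
  have h6 := rep_append_right s1 (τ1 ++ τ2)
  rw [hF.rep4 _ h2] at h6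
  omega

/-- Forbidden words do not contain each other properly. -/
theorem forb_eq {F : Wd r → Prop} (hF : ForbFam F) {f τ : Wd r} (h1 : F f) (h2 : F τ)
    (h : f <:+: τ) : f = τ := by
  obtain ⟨a, b, rfl⟩ := h
  have g2 := hF.rep4 _ h2
  have g1 := hF.rep4 _ h1
  have ha : a = [] := by
    by_contra ha
    obtain ⟨x, a1, rfl⟩ := List.exists_cons_of_ne_nil ha
    have h3 := hF.two _ h2 x.1 (by
      rw [List.cons_append, List.cons_append, idx_cons]; exact Finset.mem_insert_self _ _)
    rw [List.cons_append, List.cons_append] at h3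
    have h4 := mem_idx_of_two_left h3
    rw [List.cons_append, List.cons_append, rep_cons, if_pos h4] at g2
    have h5 := rep_append_left (a1 ++ f) b
    have h6 := rep_append_right a1 f
    omega
  subst ha
  rw [List.nil_append] at h2 g2 ⊢
  have hb : b = [] := by
    by_contra hb
    obtain ⟨b1, y, rfl⟩ : ∃ b1 y, b = b1 ++ [y] :=
      ⟨b.dropLast, b.getLast hb, (List.dropLast_append_getLast hb).symm⟩
    have h3 := hF.two _ h2 y.1 (by
      rw [← List.append_assoc, idx_append]
      exact Finset.mem_union_right _ (by simp [idx]))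
    rw [← List.append_assoc] at h3
    have h4 := mem_idx_of_two_right h3
    rw [← List.append_assoc, rep_snoc, if_pos h4] at g2
    have h5 := rep_append_left f b1
    omega
  rw [hb, List.append_nil]

/-! ## Extensions -/

/-- New bad words. -/
def Bdd (F : Wd r → Prop) (u : Wd r) : Prop := Mav F u.dropLast ∧ Rd u ∧ ¬ Mav F u

theorem Mav.dropLast {F : Wd r → Prop} {u : Wd r} (h : Mav F u) : Mav F u.dropLast :=
  h.part (List.dropLast_prefix u).isInfix


theorem Mav.pre {F : Wd r → Prop} {w : Wd r} {a : Lt r} (h : Mav F (w ++ [a])) : Mav F w :=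
  h.part ⟨[], [a], by simp⟩

theorem num_append {P Q : Wd r → Prop} (m n : ℕ) :
    num r (m + n) (fun w => P (w.take m) ∧ Q (w.drop m)) = num r m P * num r n Q := by
  rw [← Z_one_eq_num, ← Z_one_eq_num, ← Z_one_eq_num]
  exact Z_append one_pos

/-- The number of words avoiding `F`. -/
noncomputable def av (F : Wd r → Prop) (n : ℕ) : ℝ := num r n (Mav F)

theorem av_nonneg (F : Wd r → Prop) (n : ℕ) : 0 ≤ av F n := num_nonneg _ _

/-- Every nonempty word of the language has exactly `2 r - 1` reduced extensions. -/
theorem av_succ {F : Wd r → Prop} (hr : 1 ≤ r) {n : ℕ} (hn : 1 ≤ n) :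
    av F (n + 1) + num r (n + 1) (Bdd F) = (2 * r - 1) * av F n := by
  classical
  unfold av
  rw [num_def', num_def', ← Finset.sum_add_distrib]
  have e : ∀ u ∈ W r (n + 1), ((if Mav F u then (1 : ℝ) else 0) + if Bdd F u then (1 : ℝ) else 0) =
      if Mav F u.dropLast ∧ Rd u then (1 : ℝ) else 0 := by
    intro u _
    by_cases h1 : Mav F u
    · rw [if_pos h1, if_neg (fun h => h.2.2 h1), if_pos ⟨h1.dropLast, h1.1⟩, add_zero]
    · rw [if_neg h1, zero_add]
      by_cases h2 : Mav F u.dropLast ∧ Rd u
      · rw [if_pos h2, if_pos ⟨h2.1, h2.2, h1⟩]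
      · rw [if_neg h2, if_neg (fun h => h2 ⟨h.1, h.2.1⟩)]
  rw [Finset.sum_congr rfl e, sum_W_succ, num_def', Finset.mul_sum]
  apply Finset.sum_congr rfl
  intro v hv
  rw [mem_W] at hv
  have hv0 : v ≠ [] := by
    rintro rfl
    simp at hv; omega
  simp only [List.dropLast_concat]
  by_cases h : Mav F v
  · simp only [h, true_and, if_true, mul_one]
    rw [← Finset.sum_filter, Finset.sum_const, nsmul_eq_mul, card_ext_real hr hv0 h.1, mul_one]
  · simp [h]

theorem av_succ_le {F : Wd r → Prop} (hr : 1 ≤ r) {n : ℕ} (hn : 1 ≤ n) :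
    av F (n + 1) ≤ (2 * r - 1) * av F n := by
  have := av_succ (F := F) hr hn
  have h2 := num_nonneg (r := r) (n + 1) (Bdd F)
  linarith

/-- Words ending with a forbidden word of length `k`. -/
def Tk (F : Wd r → Prop) (n k : ℕ) (u : Wd r) : Prop := Mav F (u.take (n + 1 - k)) ∧ F (u.drop (n + 1 - k))

theorem num_Tk {F : Wd r → Prop} {n k : ℕ} (hk : k ≤ n + 1) :
    num r (n + 1) (Tk F n k) = av F (n + 1 - k) * num r k F := by
  have := num_append (r := r) (P := Mav F) (Q := F) (n + 1 - k) k
  rw [show n + 1 - k + k = n + 1 by omega] at this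
  exact this

/-- Forbidden words with a cancelling letter in front. -/
def Fx (F : Wd r → Prop) (w : Wd r) : Prop := ∃ y τ, w = bar y :: y :: τ ∧ F (y :: τ)

theorem num_Fx {F : Wd r → Prop} (k : ℕ) : num r (k + 1) (Fx F) ≤ num r k F := by
  classical
  rw [num_def', num_def', sum_W_succ', Finset.sum_comm]
  apply Finset.sum_le_sum
  intro τ _
  cases τ with
  | nil =>
    have : ∀ x : Lt r, ¬ Fx F [x] := by
      rintro x ⟨y, τ, h, _⟩
      simp at h
    simp only [this, if_false, Finset.sum_const_zero]
    split_ifs <;> norm_num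
  | cons y τ =>
    rw [Finset.sum_eq_single (bar y)]
    · by_cases h : F (y :: τ)
      · rw [if_pos h]; split_ifs <;> norm_num
      · rw [if_neg h, if_neg]
        rintro ⟨y', τ', h1, h2⟩
        simp only [List.cons.injEq] at h1
        obtain ⟨_, rfl, rfl⟩ := h1
        exact h h2
    · intro x _ hx
      rw [if_neg]
      rintro ⟨y', τ', h1, _⟩
      simp only [List.cons.injEq] at h1
      obtain ⟨rfl, rfl, _⟩ := h1
      exact hx rfl
    · simp

/-- Words with a cancellation in front of the final forbidden word. -/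
def Jk (F : Wd r → Prop) (n k : ℕ) (u : Wd r) : Prop := Mav F (u.take (n - k)) ∧ Fx F (u.drop (n - k))

theorem num_Jk {F : Wd r → Prop} {n k : ℕ} (hk : k ≤ n) :
    num r (n + 1) (Jk F n k) ≤ av F (n - k) * num r k F := by
  have := num_append (r := r) (P := Mav F) (Q := Fx F) (n - k) (k + 1)
  rw [show n - k + (k + 1) = n + 1 by omega] at this
  have h2 : num r (n + 1) (Jk F n k) = av F (n - k) * num r (k + 1) (Fx F) := this
  rw [h2]
  exact mul_le_mul_of_nonneg_left (num_Fx k) (av_nonneg _ _)

/-- Words ending with a word with five repeats. -/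
def Sk (F : Wd r → Prop) (n k j : ℕ) (u : Wd r) : Prop :=
  Mav F (u.take (n + 1 - k - j)) ∧ 5 ≤ rep (u.drop (n + 1 - k - j))

theorem num_Sk {F : Wd r → Prop} {n k j : ℕ} (hk : k + j ≤ n + 1) :
    num r (n + 1) (Sk F n k j) = av F (n + 1 - k - j) * num r (k + j) (fun w => 5 ≤ rep w) := by
  have := num_append (r := r) (P := Mav F) (Q := fun w => 5 ≤ rep w) (n + 1 - k - j) (k + j)
  rw [show n + 1 - k - j + (k + j) = n + 1 by omega] at this
  exact this

/-- Two reduced words whose concatenation is not reduced cancel at the junction. -/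
theorem cancel_of_not_rd {v τ : Wd r} (hv : Rd v) (hτ : Rd τ) (h : ¬ Rd (v ++ τ)) :
    ∃ v' y τ', v = v' ++ [bar y] ∧ τ = y :: τ' := by
  rcases List.eq_nil_or_concat v with rfl | ⟨v', x, rfl⟩
  · rw [List.nil_append] at h
    exact absurd hτ h
  rcases τ with _ | ⟨y, τ'⟩
  · rw [List.append_nil] at h
    exact absurd hv h
  rw [List.concat_eq_append] at *
  refine ⟨v', y, τ', ?_, rfl⟩
  by_contra hne
  apply h
  have h1 : Rd ([x] ++ (y :: τ')) := by
    change Rd (x :: y :: τ')
    rw [rd_cons_cons]
    refine ⟨?_, hτ⟩
    intro hy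
    apply hne
    rw [hy, bar_bar]
  have := FreeGroup.IsReduced.append_overlap hv h1 (by simp)
  simpa using this

/-- The trichotomy for words ending with a forbidden word. -/
theorem Tk_cases {F : Wd r → Prop} (hF : ForbFam F) {n k : ℕ} (hk : k = 7 ∨ k = 8) (hn : 16 ≤ n)
    {u : Wd r} (hu : u.length = n + 1) (h : Tk F n k u) :
    Bdd F u ∨ Jk F n k u ∨ ∃ j ∈ Finset.Icc 1 7, Sk F n k j u := by
  obtain ⟨hv, hτ⟩ := h
  set v := u.take (n + 1 - k) with hvdef
  set τ := u.drop (n + 1 - k) with hτdef
  have huv : u = v ++ τ := (List.take_append_drop _ _).symm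
  have hvl : v.length = n + 1 - k := by rw [hvdef, List.length_take]; omega
  have hτl : τ.length = k := by rw [hτdef, List.length_drop]; omega
  have hτ0 : τ ≠ [] := by rintro h0; rw [h0] at hτl; simp at hτl; omega
  by_cases hR : Rd u
  · by_cases hD : Mav F u.dropLast
    · left
      refine ⟨hD, hR, ?_⟩
      intro hM
      exact hM.2 τ ⟨v, [], by rw [List.append_nil]; exact huv.symm⟩ hτ
    · right; right
      have hRD : Rd u.dropLast := rd_part hR (List.dropLast_prefix u).isInfix
      have h1 : ∃ f, f <:+: u.dropLast ∧ F f := by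
        by_contra hcon
        push Not at hcon
        exact hD ⟨hRD, hcon⟩
      obtain ⟨f, ⟨a, b, hab⟩, hf⟩ := h1
      have hdl : u.dropLast = v ++ τ.dropLast := by
        rw [huv, List.dropLast_append_of_ne_nil hτ0]
      have hfl := hF.len f hf
      have hlen : a.length + f.length + b.length = n := by
        have := congrArg List.length hab
        rw [List.length_append, List.length_append, List.length_dropLast, hu] at this
        omega
      rw [hdl, List.append_assoc] at hab
      -- position of `f`
      rcases Nat.lt_or_ge a.length (n + 1 - k) with g1 | g1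
      · rcases Nat.lt_or_ge (n + 1 - k) (a.length + f.length) with g2 | g2
        · -- straddling
          obtain ⟨s, hs1, hs2⟩ : ∃ s, v = a ++ s ∧ f ++ b = s ++ τ.dropLast := by
            rcases List.append_eq_append_iff.1 hab with ⟨s, h1, h2⟩ | ⟨s, h1, h2⟩
            · exact ⟨s, h1, h2⟩
            · exfalso
              have := congrArg List.length h1
              rw [List.length_append] at this
              omega
          have hsl : s.length = n + 1 - k - a.length := by
            have := congrArg List.length hs1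
            rw [List.length_append] at this
            omega
          obtain ⟨τ1, hf1, hτ1⟩ : ∃ τ1, f = s ++ τ1 ∧ τ.dropLast = τ1 ++ b := by
            rcases List.append_eq_append_iff.1 hs2 with ⟨c, h1, h2⟩ | ⟨c, h1, h2⟩
            · exfalso
              have := congrArg List.length h1
              rw [List.length_append] at this
              omega
            · exact ⟨c, h1, h2⟩
          have hs0 : s ≠ [] := by rintro h0; rw [h0] at hsl; simp at hsl; omega
          have hτeq : τ = τ1 ++ (b ++ [τ.getLast hτ0]) := by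
            rw [← List.append_assoc, ← hτ1, List.dropLast_append_getLast]
          have h5 : 5 ≤ rep (s ++ τ) := by
            rw [hτeq]
            apply rep_overlap hF hs0
            · rw [← hf1]; exact hf
            · rw [← hτeq]; exact hτ
          refine ⟨s.length, Finset.mem_Icc.2 ⟨?_, ?_⟩, ?_, ?_⟩
          · rw [hsl]; omega
          · rw [hsl]; omega
          · have e : n + 1 - k - s.length = a.length := by omega
            rw [e, huv, hs1, List.append_assoc, List.take_left]
            rw [hs1] at hv
            exact hv.part ⟨[], s, by simp⟩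
          · have e : n + 1 - k - s.length = a.length := by omega
            rw [e, huv, hs1, List.append_assoc, List.drop_left]
            exact h5
        · -- inside `v`
          exfalso
          apply hv.2 f _ hf
          have h1 : v = a ++ (f ++ b).take (n + 1 - k - a.length) := by
            have h2 := congrArg (List.take (n + 1 - k)) hab
            rw [List.take_append, List.take_of_length_le (by omega)] at h2
            rw [h2, List.take_append, ← hvl, List.take_length]
            simp
          rw [h1, List.take_append, List.take_of_length_le (l := f) (by omega)]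
          exact ⟨a, (b.take (n + 1 - k - a.length - f.length)), by simp⟩
      · -- inside `τ`
        exfalso
        have h1 : f <:+: τ.dropLast := by
          rcases List.append_eq_append_iff.1 hab with ⟨s, h1, h2⟩ | ⟨s, h1, h2⟩
          · have := congrArg List.length h1
            rw [List.length_append] at this
            have hs : s = [] := by
              rw [← List.length_eq_zero_iff]; omega
            rw [hs, List.nil_append] at h2
            exact ⟨[], b, by simpa using h2⟩
          · exact ⟨s, b, by rw [h2, List.append_assoc]⟩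
        have h2 := forb_eq hF hf hτ (h1.trans (List.dropLast_prefix τ).isInfix)
        rw [h2] at h1
        have := h1.length_le
        rw [List.length_dropLast] at this
        omega
  · right; left
    rw [huv] at hR
    obtain ⟨v', y, τ', h1, h2⟩ := cancel_of_not_rd hv.1 (hF.red _ hτ) hR
    have hv'l : v'.length = n - k := by
      have := congrArg List.length h1
      rw [List.length_append, List.length_singleton] at this
      omega
    unfold Jk
    rw [huv, h1, List.append_assoc, ← hv'l, List.take_left, List.drop_left]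
    refine ⟨?_, y, τ', ?_, ?_⟩
    · rw [h1] at hv; exact hv.pre
    · rw [h2]; rfl
    · rw [← h2]; exact hτ

theorem num_or_le {n : ℕ} {P Q S : Wd r → Prop} (h : ∀ w, w.length = n → P w → Q w ∨ S w) :
    num r n P ≤ num r n Q + num r n S := by
  rw [← Z_one_eq_num, ← Z_one_eq_num, ← Z_one_eq_num]
  exact Z_or one_pos h

theorem num_exists_le {n : ℕ} {P : Wd r → Prop} (J : Finset ℕ) (Q : ℕ → Wd r → Prop)
    (h : ∀ w, w.length = n → P w → ∃ j ∈ J, Q j w) :
    num r n P ≤ ∑ j ∈ J, num r n (Q j) := by
  classical
  simp only [num_def']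
  rw [Finset.sum_comm]
  apply Finset.sum_le_sum
  intro w hw
  rw [mem_W] at hw
  split_ifs with hP
  · obtain ⟨j, hj, hq⟩ := h w hw hP
    have := Finset.single_le_sum (f := fun j => if Q j w then (1 : ℝ) else 0)
      (fun _ _ => by split_ifs <;> norm_num) hj
    simp only [hq, if_true] at this
    exact this
  · exact Finset.sum_nonneg (fun _ _ => by split_ifs <;> norm_num)

/-- Lower bound for the number of new bad words. -/
theorem num_Bdd_ge {F : Wd r → Prop} (hF : ForbFam F) {n : ℕ} (hn : 16 ≤ n) :
    av F (n - 6) * num r 7 F + av F (n - 7) * num r 8 F ≤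
      num r (n + 1) (Bdd F) + (av F (n - 7) * num r 7 F + av F (n - 8) * num r 8 F) +
      ∑ j ∈ Finset.Icc 1 7, (av F (n - 6 - j) * num r (7 + j) (fun w => 5 ≤ rep w) +
        av F (n - 7 - j) * num r (8 + j) (fun w => 5 ≤ rep w)) := by
  classical
  have key : ∀ k : ℕ, (k = 7 ∨ k = 8) → av F (n + 1 - k) * num r k F ≤
      num r (n + 1) (fun u => Tk F n k u ∧ Bdd F u) + av F (n - k) * num r k F +
      ∑ j ∈ Finset.Icc 1 7, av F (n + 1 - k - j) * num r (k + j) (fun w => 5 ≤ rep w) := by
    intro k hk
    rw [← num_Tk (F := F) (n := n) (k := k) (by omega)]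
    have h1 : num r (n + 1) (Tk F n k) ≤ num r (n + 1) (fun u => Tk F n k u ∧ Bdd F u) +
        num r (n + 1) (fun u => Jk F n k u ∨ ∃ j ∈ Finset.Icc 1 7, Sk F n k j u) := by
      apply num_or_le
      intro w hw h
      rcases Tk_cases hF hk hn hw h with g | g | g
      · exact Or.inl ⟨h, g⟩
      · exact Or.inr (Or.inl g)
      · exact Or.inr (Or.inr g)
    have h2 : num r (n + 1) (fun u => Jk F n k u ∨ ∃ j ∈ Finset.Icc 1 7, Sk F n k j u) ≤
        num r (n + 1) (Jk F n k) + num r (n + 1) (fun u => ∃ j ∈ Finset.Icc 1 7, Sk F n k j u) :=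
      num_or_le (fun w _ h => h)
    have h3 : num r (n + 1) (fun u => ∃ j ∈ Finset.Icc 1 7, Sk F n k j u) ≤
        ∑ j ∈ Finset.Icc 1 7, num r (n + 1) (Sk F n k j) :=
      num_exists_le _ _ (fun w _ h => h)
    have h4 : ∑ j ∈ Finset.Icc 1 7, num r (n + 1) (Sk F n k j) =
        ∑ j ∈ Finset.Icc 1 7, av F (n + 1 - k - j) * num r (k + j) (fun w => 5 ≤ rep w) := by
      apply Finset.sum_congr rfl
      intro j hj
      rw [Finset.mem_Icc] at hj
      exact num_Sk (by omega)
    have h5 := num_Jk (F := F) (n := n) (k := k) (by omega)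
    linarith
  have k7 := key 7 (Or.inl rfl)
  have k8 := key 8 (Or.inr rfl)
  have hdis : num r (n + 1) (fun u => Tk F n 7 u ∧ Bdd F u) +
      num r (n + 1) (fun u => Tk F n 8 u ∧ Bdd F u) ≤ num r (n + 1) (Bdd F) := by
    rw [num_def', num_def', num_def', ← Finset.sum_add_distrib]
    apply Finset.sum_le_sum
    intro u hu
    rw [mem_W] at hu
    by_cases h7 : Tk F n 7 u
    · have h8 : ¬ Tk F n 8 u := by
        intro h8
        have g7 := h7.2
        have g8 := h8.2
        have e : u.drop (n + 1 - 7) <:+: u.drop (n + 1 - 8) := by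
          have : u.drop (n + 1 - 7) = (u.drop (n + 1 - 8)).drop 1 := by
            rw [List.drop_drop]; congr 1; omega
          rw [this]
          exact (List.drop_suffix _ _).isInfix
        have := forb_eq hF g7 g8 e
        have h9 := congrArg List.length this
        rw [List.length_drop, List.length_drop] at h9
        omega
      simp only [h7, h8, true_and, false_and, if_false, add_zero]
      exact le_rfl
    · simp only [h7, false_and, if_false, zero_add]
      split_ifs with g1 g2
      · exact le_rfl
      · exact absurd g1.2 g2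
      · norm_num
      · exact le_rfl
  rw [show n + 1 - 7 = n - 6 by omega] at k7
  rw [show n + 1 - 8 = n - 7 by omega] at k8
  rw [Finset.sum_add_distrib]
  linarith

end Pool.Agent.Helper44.FMet
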