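import Pool.Agent.Helper44.FMet.Avoid

/-!
# Upper bound for the growth of the words avoiding the forbidden words
-/

namespace Pool.Agent.Helper44.FMet

open Pool.Agent.Helper62.FM

variable {r : ℕ}

theorem Mav_lang {F : Wd r → Prop} (hF : ForbFam F) : Lang (Mav F) F where
  nil := by
    refine ⟨FreeGroup.IsReduced.nil, ?_⟩
    intro f hf h
    have h1 := hF.len f h
    have h2 := hf.length_le
    simp at h2
    rw [h2] at h1
    simp at h1
  red := fun w h => h.1
  pre := fun w a h => h.pre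
  bad := by
    intro w a hw hR hM
    have h1 : ∃ f, f <:+: w ++ [a] ∧ F f := by
      by_contra hcon
      push Not at hcon
      exact hM ⟨hR, hcon⟩
    obtain ⟨f, ⟨u, v, huv⟩, hf⟩ := h1
    have hf0 : f ≠ [] := by
      rintro rfl
      have := hF.len _ hf
      simp at this
    rcases List.eq_nil_or_concat v with rfl | ⟨v', b, rfl⟩
    · rw [List.append_nil] at huv
      exact ⟨u, f, hf0, huv, hf⟩
    · exfalso
      rw [List.concat_eq_append] at huv
      have h2 := congrArg List.dropLast huv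
      rw [← List.append_assoc, List.dropLast_concat, List.dropLast_concat] at h2
      exact hw.2 f ⟨u, v', h2⟩ hf

theorem num_F_le {F : Wd r → Prop} (hF : ForbFam F) (hr : 1 ≤ r) (k : ℕ) :
    num r k F * (2 * r) ^ 4 ≤ (2 * k + 1) ^ k * (2 * r) ^ k := by
  refine le_trans (mul_le_mul_of_nonneg_right (num_mono ?_) (by positivity)) (num_rep k 4)
  intro w _ h
  rw [hF.rep4 w h]

theorem num_F_zero {F : Wd r → Prop} (hF : ForbFam F) {k : ℕ} (h7 : k ≠ 7) (h8 : k ≠ 8) :
    num r k F = 0 := by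
  classical
  rw [num_def']
  apply Finset.sum_eq_zero
  intro w hw
  rw [mem_W] at hw
  rw [if_neg]
  intro h
  rcases hF.len w h with h | h <;> omega

theorem num_F7 {F : Wd r → Prop} (hF : ForbFam F) (hr : 1 ≤ r) :
    num r 7 F ≤ 15 ^ 7 * 8 * (r : ℝ) ^ 3 := by
  have h := num_F_le hF hr 7
  have hr' : (0 : ℝ) < r := by exact_mod_cast hr
  have h4 : (0 : ℝ) < (2 * r) ^ 4 := by positivity
  have h5 : num r 7 F * (2 * r) ^ 4 ≤ (15 ^ 7 * 8 * (r : ℝ) ^ 3) * (2 * r) ^ 4 := by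
    refine h.trans (le_of_eq ?_)
    push_cast; ring
  exact le_of_mul_le_mul_right h5 h4

theorem num_F8 {F : Wd r → Prop} (hF : ForbFam F) (hr : 1 ≤ r) :
    num r 8 F ≤ 17 ^ 8 * 16 * (r : ℝ) ^ 4 := by
  have h := num_F_le hF hr 8
  have hr' : (0 : ℝ) < r := by exact_mod_cast hr
  have h4 : (0 : ℝ) < (2 * r) ^ 4 := by positivity
  have h5 : num r 8 F * (2 * r) ^ 4 ≤ (17 ^ 8 * 16 * (r : ℝ) ^ 4) * (2 * r) ^ 4 := by
    refine h.trans (le_of_eq ?_)
    push_cast; ring
  exact le_of_mul_le_mul_right h5 h4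

/-- Number of words with five repeats. -/
theorem num_rep5 (hr : 1 ≤ r) {k : ℕ} (hk : 5 ≤ k) :
    num r k (fun w => 5 ≤ rep w) ≤ (2 * k + 1) ^ k * (2 * r) ^ (k - 5) := by
  have h := num_rep (r := r) k 5
  have hr' : (0 : ℝ) < r := by exact_mod_cast hr
  have h4 : (0 : ℝ) < (2 * (r : ℝ)) ^ 5 := by positivity
  have h5 : num r k (fun w => 5 ≤ rep w) * (2 * r) ^ 5 ≤
      ((2 * k + 1) ^ k * (2 * r) ^ (k - 5)) * (2 * r) ^ 5 := by
    refine h.trans (le_of_eq ?_)
    rw [mul_assoc, ← pow_add, Nat.sub_add_cancel hk]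
  exact le_of_mul_le_mul_right h5 h4

theorem sum_F_le {F : Wd r → Prop} (hF : ForbFam F) {β : ℝ} (hβ : 0 < β) (N : ℕ) :
    ∑ k ∈ Finset.range N, num r (k + 1) F / β ^ k ≤ num r 7 F / β ^ 6 + num r 8 F / β ^ 7 := by
  have h1 : ∀ N, ∑ k ∈ Finset.range N, num r (k + 1) F / β ^ k ≤
      ∑ k ∈ Finset.range (N + 8), num r (k + 1) F / β ^ k := by
    intro N
    apply Finset.sum_le_sum_of_subset_of_nonneg
    · intro k hk
      rw [Finset.mem_range] at hk ⊢
      omega
    · intro k _ _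
      have := num_nonneg (r := r) (k + 1) F
      positivity
  refine (h1 N).trans (le_of_eq ?_)
  have h2 : ∑ k ∈ Finset.range (N + 8), num r (k + 1) F / β ^ k =
      ∑ k ∈ ({6, 7} : Finset ℕ), num r (k + 1) F / β ^ k := by
    symm
    apply Finset.sum_subset
    · intro k hk
      rw [Finset.mem_insert, Finset.mem_singleton] at hk
      rw [Finset.mem_range]
      omega
    · intro k _ hk
      rw [Finset.mem_insert, Finset.mem_singleton] at hk
      push Not at hk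
      rw [num_F_zero hF (by omega) (by omega), zero_div]
  rw [h2, Finset.sum_pair (by norm_num)]

theorem A_one : A r 1 = 2 * r := by
  unfold A
  rw [inv_one]; ring

/-- Crude lower bound for the growth. -/
theorem av_growth_low {F : Wd r → Prop} (hF : ForbFam F) (hr : 10000 ≤ r) (n : ℕ) :
    (2 * r - 2) * av F n ≤ av F (n + 1) := by
  have hr' : (10000 : ℝ) ≤ r := by exact_mod_cast hr
  have hr1 : 1 ≤ r := by omega
  have hβ : (0 : ℝ) < 2 * r - 2 := by linarith
  have h := growth (Mav_lang hF) one_pos hr1 (t := 1) (β := 2 * r - 2) ?_ hβ ?_ ?_ n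
  · rw [Z_one_eq_num, Z_one_eq_num] at h
    exact h
  · intro a ha
    have := hF.len _ ha
    simp at this
  · intro N
    rw [A_one]
    have h1 : ∑ k ∈ Finset.range N, Z F 1 (k + 1) / (2 * (r : ℝ) - 2) ^ k ≤
        num r 7 F / (2 * (r : ℝ) - 2) ^ 6 + num r 8 F / (2 * (r : ℝ) - 2) ^ 7 := by
      simp only [Z_one_eq_num]
      exact sum_F_le hF hβ N
    have h2 : (r : ℝ) ≤ 2 * r - 2 := by linarith
    have h7 : num r 7 F / (2 * (r : ℝ) - 2) ^ 6 ≤ 1 / 4 := by
      rw [div_le_iff₀ (by positivity)]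
      have g1 := num_F7 hF hr1
      have g2 : (r : ℝ) ^ 6 ≤ (2 * (r : ℝ) - 2) ^ 6 := pow_le_pow_left₀ (by linarith) h2 6
      have g3 : (10000 : ℝ) ^ 3 ≤ (r : ℝ) ^ 3 := pow_le_pow_left₀ (by norm_num) hr' 3
      have g4 : (0 : ℝ) < (r : ℝ) ^ 3 := by positivity
      have g5 : 15 ^ 7 * 8 * (r : ℝ) ^ 3 ≤ 1 / 4 * (r : ℝ) ^ 6 := by
        have : (r : ℝ) ^ 6 = (r : ℝ) ^ 3 * (r : ℝ) ^ 3 := by ring
        rw [this]
        have := mul_le_mul_of_nonneg_right g3 g4.le
        nlinarith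
      linarith
    have h8 : num r 8 F / (2 * (r : ℝ) - 2) ^ 7 ≤ 1 / 4 := by
      rw [div_le_iff₀ (by positivity)]
      have g1 := num_F8 hF hr1
      have g2 : (r : ℝ) ^ 7 ≤ (2 * (r : ℝ) - 2) ^ 7 := pow_le_pow_left₀ (by linarith) h2 7
      have g3 : (10000 : ℝ) ^ 3 ≤ (r : ℝ) ^ 3 := pow_le_pow_left₀ (by norm_num) hr' 3
      have g4 : (0 : ℝ) < (r : ℝ) ^ 4 := by positivity
      have g5 : 17 ^ 8 * 16 * (r : ℝ) ^ 4 ≤ 1 / 4 * (r : ℝ) ^ 7 := by
        have : (r : ℝ) ^ 7 = (r : ℝ) ^ 3 * (r : ℝ) ^ 4 := by ring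
        rw [this]
        have := mul_le_mul_of_nonneg_right g3 g4.le
        nlinarith
      linarith
    have h9 : (2 * (r : ℝ) - 1) / (2 * r - 2) ≤ 3 / 2 := by
      rw [div_le_iff₀ hβ]; linarith
    linarith
  · rw [A_one]
    nlinarith

theorem av_down {F : Wd r → Prop} (hF : ForbFam F) (hr : 10000 ≤ r) (n : ℕ) :
    ∀ i, i ≤ n → av F (n - i) * (r : ℝ) ^ i ≤ av F n := by
  have hr' : (10000 : ℝ) ≤ r := by exact_mod_cast hr
  intro i
  induction i with
  | zero => intro _; simp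
  | succ i ih =>
    intro hi
    have h1 := ih (by omega)
    have h2 := av_growth_low hF hr (n - (i + 1))
    rw [show n - (i + 1) + 1 = n - i by omega] at h2
    have h3 : r * av F (n - (i + 1)) ≤ av F (n - i) := by
      have := av_nonneg F (n - (i + 1))
      nlinarith
    calc av F (n - (i + 1)) * (r : ℝ) ^ (i + 1) = (r * av F (n - (i + 1))) * (r : ℝ) ^ i := by ring
      _ ≤ av F (n - i) * (r : ℝ) ^ i := mul_le_mul_of_nonneg_right h3 (by positivity)
      _ ≤ _ := h1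

theorem av_up {F : Wd r → Prop} (hr : 1 ≤ r) (n : ℕ) :
    ∀ i, i < n → av F n ≤ av F (n - i) * (2 * r - 1) ^ i := by
  have hr' : (1 : ℝ) ≤ r := by exact_mod_cast hr
  intro i
  induction i with
  | zero => intro _; simp
  | succ i ih =>
    intro hi
    have h1 := ih (by omega)
    have h2 := av_succ_le (F := F) hr (n := n - (i + 1)) (by omega)
    rw [show n - (i + 1) + 1 = n - i by omega] at h2
    have h0 : (0 : ℝ) ≤ 2 * r - 1 := by linarith
    calc av F n ≤ av F (n - i) * (2 * r - 1) ^ i := h1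
      _ ≤ ((2 * r - 1) * av F (n - (i + 1))) * (2 * r - 1) ^ i :=
        mul_le_mul_of_nonneg_right h2 (by positivity)
      _ = _ := by ring

/-- The rate of loss. -/
noncomputable def kap (F : Wd r → Prop) : ℝ :=
  num r 7 F / (2 * r - 1) ^ 6 + num r 8 F / (2 * r - 1) ^ 7

/-- The constant in the error term. -/
noncomputable def C0 : ℝ := 15 ^ 7 * 8 + 17 ^ 8 * 16 + 14 * (31 ^ 15 * 2 ^ 10)

theorem C0_pos : 0 < C0 := by unfold C0; positivity

/-- The upper recursion. -/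
theorem av_main {F : Wd r → Prop} (hF : ForbFam F) (hr : 10000 ≤ r) {n : ℕ} (hn : 16 ≤ n) :
    av F (n + 1) ≤ (2 * r - 1 - kap F + C0 / (r : ℝ) ^ 4) * av F n := by
  have hr' : (10000 : ℝ) ≤ r := by exact_mod_cast hr
  have hr0 : (0 : ℝ) < r := by linarith
  have hr1 : 1 ≤ r := by omega
  have h1 := av_succ (F := F) hr1 (n := n) (by omega)
  have h2 := num_Bdd_ge hF hn
  have ha := av_nonneg F n
  have hb : (0 : ℝ) < 2 * r - 1 := by linarith
  have f7 := num_F7 hF hr1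
  have f8 := num_F8 hF hr1
  have p7 := num_nonneg (r := r) 7 F
  have p8 := num_nonneg (r := r) 8 F
  -- main terms
  have m7 : av F n * (num r 7 F / (2 * r - 1) ^ 6) ≤ av F (n - 6) * num r 7 F := by
    have := av_up (F := F) hr1 n 6 (by omega)
    rw [mul_div_assoc', div_le_iff₀ (by positivity)]
    nlinarith
  have m8 : av F n * (num r 8 F / (2 * r - 1) ^ 7) ≤ av F (n - 7) * num r 8 F := by
    have := av_up (F := F) hr1 n 7 (by omega)
    rw [mul_div_assoc', div_le_iff₀ (by positivity)]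
    nlinarith
  -- error terms
  have e7 : av F (n - 7) * num r 7 F ≤ av F n * (15 ^ 7 * 8 / (r : ℝ) ^ 4) := by
    have := av_down hF hr n 7 (by omega)
    rw [mul_div_assoc', le_div_iff₀ (by positivity)]
    calc av F (n - 7) * num r 7 F * (r : ℝ) ^ 4 ≤
          av F (n - 7) * (15 ^ 7 * 8 * (r : ℝ) ^ 3) * (r : ℝ) ^ 4 := by
          apply mul_le_mul_of_nonneg_right _ (by positivity)
          exact mul_le_mul_of_nonneg_left f7 (av_nonneg _ _)
      _ = (av F (n - 7) * (r : ℝ) ^ 7) * (15 ^ 7 * 8) := by ring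
      _ ≤ av F n * (15 ^ 7 * 8) := mul_le_mul_of_nonneg_right this (by positivity)
  have e8 : av F (n - 8) * num r 8 F ≤ av F n * (17 ^ 8 * 16 / (r : ℝ) ^ 4) := by
    have := av_down hF hr n 8 (by omega)
    rw [mul_div_assoc', le_div_iff₀ (by positivity)]
    calc av F (n - 8) * num r 8 F * (r : ℝ) ^ 4 ≤
          av F (n - 8) * (17 ^ 8 * 16 * (r : ℝ) ^ 4) * (r : ℝ) ^ 4 := by
          apply mul_le_mul_of_nonneg_right _ (by positivity)
          exact mul_le_mul_of_nonneg_left f8 (av_nonneg _ _)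
      _ = (av F (n - 8) * (r : ℝ) ^ 8) * (17 ^ 8 * 16) := by ring
      _ ≤ av F n * (17 ^ 8 * 16) := mul_le_mul_of_nonneg_right this (by positivity)
  -- overlap terms
  have e5 : ∀ k j, (k = 7 ∨ k = 8) → j ∈ Finset.Icc 1 7 →
      av F (n - (k - 1) - j) * num r (k + j) (fun w => 5 ≤ rep w) ≤
        av F n * (31 ^ 15 * 2 ^ 10 / (r : ℝ) ^ 4) := by
    intro k j hk hj
    rw [Finset.mem_Icc] at hj
    have g1 := num_rep5 (r := r) hr1 (k := k + j) (by omega)
    have g2 := av_down hF hr n (k - 1 + j) (by omega)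
    rw [← Nat.sub_sub] at g2
    have g3 : ((2 * ((k + j : ℕ) : ℝ) + 1)) ^ (k + j) ≤ 31 ^ 15 := by
      have q1 : (2 * ((k + j : ℕ) : ℝ) + 1) ≤ 31 := by
        have : ((k + j : ℕ) : ℝ) ≤ 15 := by exact_mod_cast (show k + j ≤ 15 by omega)
        linarith
      calc ((2 * ((k + j : ℕ) : ℝ) + 1)) ^ (k + j) ≤ 31 ^ (k + j) :=
            pow_le_pow_left₀ (by positivity) q1 _
        _ ≤ 31 ^ 15 := pow_le_pow_right₀ (by norm_num) (by omega)
    have g4 : (2 * (r : ℝ)) ^ (k + j - 5) ≤ 2 ^ 10 * (r : ℝ) ^ (k + j - 5) := by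
      rw [mul_pow]
      apply mul_le_mul_of_nonneg_right _ (by positivity)
      exact pow_le_pow_right₀ (by norm_num) (by omega)
    have g5 : num r (k + j) (fun w => 5 ≤ rep w) ≤ 31 ^ 15 * (2 ^ 10 * (r : ℝ) ^ (k + j - 5)) :=
      g1.trans (mul_le_mul g3 g4 (by positivity) (by positivity))
    rw [mul_div_assoc', le_div_iff₀ (by positivity)]
    have g6 : (r : ℝ) ^ (k + j - 5) * (r : ℝ) ^ 4 = (r : ℝ) ^ (k - 1 + j) := by
      rw [← pow_add]; congr 1; omega
    calc av F (n - (k - 1) - j) * num r (k + j) (fun w => 5 ≤ rep w) * (r : ℝ) ^ 4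
        ≤ av F (n - (k - 1) - j) * (31 ^ 15 * (2 ^ 10 * (r : ℝ) ^ (k + j - 5))) * (r : ℝ) ^ 4 := by
          apply mul_le_mul_of_nonneg_right _ (by positivity)
          exact mul_le_mul_of_nonneg_left g5 (av_nonneg _ _)
      _ = (av F (n - (k - 1) - j) * ((r : ℝ) ^ (k + j - 5) * (r : ℝ) ^ 4)) * (31 ^ 15 * 2 ^ 10) := by
          ring
      _ ≤ av F n * (31 ^ 15 * 2 ^ 10) := by
          rw [g6]
          exact mul_le_mul_of_nonneg_right g2 (by positivity)
  have esum : ∑ j ∈ Finset.Icc 1 7, (av F (n - 6 - j) * num r (7 + j) (fun w => 5 ≤ rep w) +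
        av F (n - 7 - j) * num r (8 + j) (fun w => 5 ≤ rep w)) ≤
        14 * (av F n * (31 ^ 15 * 2 ^ 10 / (r : ℝ) ^ 4)) := by
    calc _ ≤ ∑ j ∈ Finset.Icc 1 7, (av F n * (31 ^ 15 * 2 ^ 10 / (r : ℝ) ^ 4) +
          av F n * (31 ^ 15 * 2 ^ 10 / (r : ℝ) ^ 4)) := by
          apply Finset.sum_le_sum
          intro j hj
          exact add_le_add (e5 7 j (Or.inl rfl) hj) (e5 8 j (Or.inr rfl) hj)
      _ = _ := by
          rw [Finset.sum_const]
          simp only [Nat.card_Icc, nsmul_eq_mul]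
          push_cast; ring
  have hC : (2 * r - 1 - kap F + C0 / (r : ℝ) ^ 4) * av F n =
      (2 * r - 1) * av F n - (av F n * (num r 7 F / (2 * r - 1) ^ 6) +
        av F n * (num r 8 F / (2 * r - 1) ^ 7)) + av F n * (15 ^ 7 * 8 / (r : ℝ) ^ 4) +
        av F n * (17 ^ 8 * 16 / (r : ℝ) ^ 4) + 14 * (av F n * (31 ^ 15 * 2 ^ 10 / (r : ℝ) ^ 4)) := by
    unfold kap C0
    ring
  rw [hC]
  linarith

end Pool.Agent.Helper44.FMet
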