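import Pool.Agent.Helper62.FM.Group

/-!
# The growth rate of the free metabelian group exists (Fekete), comparison with words
-/

namespace Pool.Agent.Helper44.FMet

open Pool.Agent.Helper62.FM Filter Topology

variable {r : ℕ}

/-- All words of length `n`. -/
def Wn (r n : ℕ) : Finset (Wd r) :=
  (Finset.univ : Finset (List.Vector (Lt r) n)).image (fun v => v.1)

theorem mem_Wn {n : ℕ} {w : Wd r} : w ∈ Wn r n ↔ w.length = n := by
  unfold Wn
  rw [Finset.mem_image]
  constructor
  · rintro ⟨v, _, rfl⟩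
    exact v.2
  · intro h
    exact ⟨⟨w, h⟩, Finset.mem_univ _, rfl⟩

theorem len_le (w : Wd r) : len (el w) ≤ w.length := Nat.sInf_le ⟨w, rfl, rfl⟩

theorem exists_word (g : FMet r) : ∃ w : Wd r, w.length = len g ∧ el w = g := by
  have : {n | ∃ w : Wd r, w.length = n ∧ el w = g}.Nonempty := by
    obtain ⟨w, hw⟩ := el_surj g
    exact ⟨w.length, w, rfl, hw⟩
  exact Nat.sInf_mem this

theorem len_mul_le (g h : FMet r) : len (g * h) ≤ len g + len h := by
  obtain ⟨u, hu, rfl⟩ := exists_word g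
  obtain ⟨v, hv, rfl⟩ := exists_word h
  rw [← hu, ← hv, ← el_append, ← List.length_append]
  exact len_le _

instance sph_finite (n : ℕ) : Finite {g : FMet r // len g = n} := by
  classical
  have : {g : FMet r | len g = n} ⊆ (((Wn r n).image el : Finset (FMet r)) : Set (FMet r)) := by
    intro g hg
    obtain ⟨w, hw, rfl⟩ := exists_word g
    rw [Finset.coe_image]
    exact ⟨w, by rw [Finset.mem_coe, mem_Wn, hw]; exact hg, rfl⟩
  exact Set.Finite.subset (Finset.finite_toSet _) this

theorem sph_add_le (m n : ℕ) : sph r (m + n) ≤ sph r m * sph r n := by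
  unfold sph
  rw [← Nat.card_prod]
  have key : ∀ g : {g : FMet r // len g = m + n}, ∃ p : {g : FMet r // len g = m} ×
      {g : FMet r // len g = n}, p.1.1 * p.2.1 = g.1 := by
    rintro ⟨g, hg⟩
    obtain ⟨w, hw, rfl⟩ := exists_word g
    have h1 : el (w.take m) * el (w.drop m) = el w := by
      rw [← el_append, List.take_append_drop]
    have h2 := len_le (w.take m)
    have h3 := len_le (w.drop m)
    have h4 := len_mul_le (el (w.take m)) (el (w.drop m))
    rw [h1] at h4
    rw [List.length_take] at h2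
    rw [List.length_drop] at h3
    refine ⟨⟨⟨el (w.take m), ?_⟩, ⟨el (w.drop m), ?_⟩⟩, h1⟩
    · omega
    · omega
  choose f hf using key
  refine Nat.card_le_card_of_injective f ?_
  intro a b hab
  ext1
  rw [← hf a, ← hf b, hab]

theorem disp_eq_of_el_eq {u w : Wd r} (h : el u = el w) : disp u = disp w :=
  disp_eq_of_fl_eq (fl_eq_of_el_eq h)

theorem sph_pos (hr : 1 ≤ r) (n : ℕ) : 0 < sph r n := by
  unfold sph
  rw [Nat.card_pos_iff]
  refine ⟨⟨⟨el (List.replicate n (⟨0, hr⟩, true)), ?_⟩⟩, inferInstance⟩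
  apply le_antisymm
  · refine (len_le _).trans ?_
    rw [List.length_replicate]
  · obtain ⟨w, hw, he⟩ := exists_word (el (List.replicate n ((⟨0, hr⟩, true) : Lt r)))
    rw [← hw]
    have h1 := disp_eq_of_el_eq he
    have h2 : ∀ n : ℕ, disp (List.replicate n ((⟨0, hr⟩, true) : Lt r)) ⟨0, hr⟩ = n := by
      intro n
      induction n with
      | zero => simp [disp]
      | succ n ih =>
        rw [List.replicate_succ, disp, Pi.add_apply, ih]
        simp [step, sgn]
        ring
    have h3 := disp_natAbs_le ⟨0, hr⟩ w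
    rw [h1, h2] at h3
    have h4 : cnt ⟨0, hr⟩ w ≤ w.length := by
      unfold cnt
      exact (List.count_le_length).trans (by simp)
    simp at h3
    omega

/-- The logarithm of the sphere sizes is subadditive. -/
theorem sub (hr : 1 ≤ r) : Subadditive (fun n => Real.log (sph r n)) := by
  intro m n
  have h1 : (0 : ℝ) < sph r m := by exact_mod_cast sph_pos hr m
  have h2 : (0 : ℝ) < sph r n := by exact_mod_cast sph_pos hr n
  have h3 : (0 : ℝ) < sph r (m + n) := by exact_mod_cast sph_pos hr (m + n)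
  rw [← Real.log_mul h1.ne' h2.ne']
  apply Real.log_le_log h3
  exact_mod_cast sph_add_le m n

/-- The growth rate. -/
noncomputable def om (r : ℕ) (hr : 1 ≤ r) : ℝ := Real.exp (sub (r := r) hr).lim

theorem bdd (hr : 1 ≤ r) : BddBelow (Set.range fun n => Real.log (sph r n) / n) := by
  refine ⟨0, ?_⟩
  rintro x ⟨n, rfl⟩
  have : (1 : ℝ) ≤ sph r n := by exact_mod_cast sph_pos hr n
  exact div_nonneg (Real.log_nonneg this) n.cast_nonneg

theorem tendsto_om (hr : 1 ≤ r) :
    Tendsto (fun n : ℕ => (sph r n : ℝ) ^ (1 / (n : ℝ))) atTop (𝓝 (om r hr)) := by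
  have h := (sub hr).tendsto_lim (bdd hr)
  have h2 := (Real.continuous_exp.tendsto _).comp h
  refine h2.congr ?_
  intro n
  have h3 : (0 : ℝ) < sph r n := by exact_mod_cast sph_pos hr n
  simp only [Function.comp]
  rw [Real.rpow_def_of_pos h3]
  congr 1
  ring

theorem om_pos (hr : 1 ≤ r) : 0 < om r hr := Real.exp_pos _

theorem one_le_om (hr : 1 ≤ r) : 1 ≤ om r hr := by
  apply ge_of_tendsto (tendsto_om hr)
  filter_upwards with n
  have : (1 : ℝ) ≤ sph r n := by exact_mod_cast sph_pos hr n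
  exact Real.one_le_rpow this (by positivity)

theorem om_unique (hr : 1 ≤ r) {x : ℝ}
    (h : Tendsto (fun n : ℕ => (sph r n : ℝ) ^ (1 / (n : ℝ))) atTop (𝓝 x)) : x = om r hr :=
  tendsto_nhds_unique h (tendsto_om hr)

/-- Comparison of exponential growth rates. -/
theorem le_of_pow_le {c p q : ℝ} {k : ℕ} (hc : 0 < c) (hq : 0 < q) (hp : 0 ≤ p)
    (h : ∀ᶠ n : ℕ in atTop, c * p ^ n ≤ (n + 1) ^ k * q ^ n) : p ≤ q := by
  by_contra hlt
  push Not at hlt
  have h1 : 1 < p / q := (one_lt_div hq).2 hlt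
  have h3 : Tendsto (fun n : ℕ => ((n : ℝ) ^ k) / (p / q) ^ n) atTop (𝓝 0) :=
    tendsto_pow_const_div_const_pow_of_one_lt k h1
  have h4 : Tendsto (fun n : ℕ => (((n + 1 : ℕ) : ℝ) ^ k) / (p / q) ^ (n + 1)) atTop (𝓝 0) :=
    (tendsto_add_atTop_iff_nat 1).2 h3
  have h5 : Tendsto (fun n : ℕ => (p / q) * ((((n + 1 : ℕ) : ℝ) ^ k) / (p / q) ^ (n + 1))) atTop
      (𝓝 ((p / q) * 0)) := h4.const_mul _
  rw [mul_zero] at h5
  have h6 : ∀ᶠ n : ℕ in atTop, c ≤ (p / q) * ((((n + 1 : ℕ) : ℝ) ^ k) / (p / q) ^ (n + 1)) := by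
    filter_upwards [h] with n hn
    have hq' : (0 : ℝ) < q ^ n := pow_pos hq n
    have hpq : (0 : ℝ) < (p / q) ^ n := pow_pos (by linarith) n
    have e1 : (p / q) * ((((n + 1 : ℕ) : ℝ) ^ k) / (p / q) ^ (n + 1)) =
        ((n + 1 : ℝ) ^ k) / (p / q) ^ n := by
      have : (p / q) ≠ 0 := by linarith
      rw [pow_succ]
      push_cast
      generalize p / q = x at this ⊢
      field_simp
    rw [e1, le_div_iff₀ hpq, div_pow]
    rw [mul_div_assoc', div_le_iff₀ hq']
    exact hn
  have := ge_of_tendsto h5 h6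
  linarith

/-- Upper bounds for the spheres bound the growth rate. -/
theorem om_le (hr : 1 ≤ r) {C q : ℝ} (hC : 0 < C) (hq : 0 < q) {k : ℕ}
    (h : ∀ᶠ n : ℕ in atTop, (sph r n : ℝ) ≤ C * (n + 1) ^ k * q ^ n) : om r hr ≤ q := by
  apply le_of_pow_le (c := 1 / C) (k := k) (by positivity) hq (om_pos hr).le
  filter_upwards [h, eventually_ge_atTop 1] with n hn hn1
  have h1 := (sub hr).lim_le_div (bdd hr) (n := n) (by omega)
  have h3 : (0 : ℝ) < sph r n := by exact_mod_cast sph_pos hr n
  have hn' : (0 : ℝ) < n := by exact_mod_cast hn1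
  have h2 : om r hr ^ n ≤ sph r n := by
    rw [om, ← Real.exp_nat_mul, ← Real.le_log_iff_exp_le h3]
    rw [le_div_iff₀ hn'] at h1
    linarith
  rw [one_div, inv_mul_le_iff₀ hC]
  calc om r hr ^ n ≤ sph r n := h2
    _ ≤ C * (n + 1) ^ k * q ^ n := hn
    _ = C * ((n + 1) ^ k * q ^ n) := by ring

/-- The number of different elements of length at most `n`. -/
theorem card_le_ball {n : ℕ} (S : Finset (Wd r)) (hS : ∀ w ∈ S, w.length ≤ n)
    (hinj : ∀ u ∈ S, ∀ w ∈ S, el u = el w → u = w) :
    S.card ≤ ∑ k ∈ Finset.range (n + 1), sph r k := by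
  classical
  have hfin : ∀ k, Set.Finite {g : FMet r | len g = k} := fun k =>
    Set.finite_coe_iff.1 (sph_finite k)
  have h1 : S.card = (S.image el).card := by
    rw [Finset.card_image_of_injOn]
    intro u hu w hw h
    exact hinj u hu w hw h
  rw [h1]
  calc (S.image el).card ≤ ((Finset.range (n + 1)).biUnion (fun k => (hfin k).toFinset)).card := by
        apply Finset.card_le_card
        intro g hg
        rw [Finset.mem_image] at hg
        obtain ⟨w, hw, rfl⟩ := hg
        rw [Finset.mem_biUnion]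
        refine ⟨len (el w), Finset.mem_range.2 ?_, ?_⟩
        · have := len_le w
          have := hS w hw
          omega
        · rw [Set.Finite.mem_toFinset]; rfl
    _ ≤ ∑ k ∈ Finset.range (n + 1), ((hfin k).toFinset).card := Finset.card_biUnion_le
    _ = ∑ k ∈ Finset.range (n + 1), sph r k := by
        apply Finset.sum_congr rfl
        intro k _
        unfold sph
        rw [← Set.ncard_eq_toFinset_card _ (hfin k)]
        rfl

/-- Large sets of words with different values bound the growth rate from below. -/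
theorem le_om (hr : 1 ≤ r) {c q : ℝ} (hc : 0 < c) (hq : 0 ≤ q) (S : ℕ → Finset (Wd r))
    (hS : ∀ n, ∀ w ∈ S n, w.length ≤ n)
    (hinj : ∀ n, ∀ u ∈ S n, ∀ w ∈ S n, el u = el w → u = w)
    (h : ∀ᶠ n : ℕ in atTop, c * q ^ n ≤ (S n).card) : q ≤ om r hr := by
  apply le_of_forall_pos_le_add
  intro ε hε
  have h1 : ∀ᶠ n : ℕ in atTop, (sph r n : ℝ) ^ (1 / (n : ℝ)) < om r hr + ε :=
    (tendsto_om hr).eventually_lt_const (by linarith)
  obtain ⟨n0, hn0⟩ := (h1.and (eventually_ge_atTop 1)).exists_forall_of_atTop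
  set q' := om r hr + ε with hq'
  have hq1 : 1 ≤ q' := by have := one_le_om hr; linarith
  -- bound for each sphere
  set C : ℝ := 1 + ∑ k ∈ Finset.range n0, (sph r k : ℝ) with hC
  have hC1 : 1 ≤ C := by
    have : (0 : ℝ) ≤ ∑ k ∈ Finset.range n0, (sph r k : ℝ) := Finset.sum_nonneg (fun _ _ => by positivity)
    linarith
  have h2 : ∀ k, (sph r k : ℝ) ≤ C * q' ^ k := by
    intro k
    rcases Nat.lt_or_ge k n0 with hk | hk
    · have h3 : (sph r k : ℝ) ≤ ∑ k ∈ Finset.range n0, (sph r k : ℝ) :=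
        Finset.single_le_sum (f := fun k => (sph r k : ℝ)) (fun _ _ => by positivity)
          (Finset.mem_range.2 hk)
      have h4 : 1 ≤ q' ^ k := one_le_pow₀ hq1
      nlinarith
    · obtain ⟨h3, h4⟩ := hn0 k hk
      have h5 : (0 : ℝ) ≤ sph r k := by positivity
      have h6 : (k : ℝ) ≠ 0 := by
        have : k ≠ 0 := by omega
        exact_mod_cast this
      have h7 : (sph r k : ℝ) ≤ q' ^ k := by
        calc (sph r k : ℝ) = ((sph r k : ℝ) ^ (1 / (k : ℝ))) ^ k := by
              rw [← Real.rpow_natCast, ← Real.rpow_mul h5]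
              rw [one_div_mul_cancel h6, Real.rpow_one]
          _ ≤ q' ^ k := pow_le_pow_left₀ (by positivity) h3.le k
      have h8 : (0 : ℝ) ≤ q' ^ k := by positivity
      nlinarith
  apply le_of_pow_le (c := c / C) (k := 1) (by positivity) (by linarith) hq
  filter_upwards [h] with n hn
  have h9 : ((S n).card : ℝ) ≤ ∑ k ∈ Finset.range (n + 1), (sph r k : ℝ) := by
    exact_mod_cast card_le_ball (S n) (hS n) (hinj n)
  have h10 : ∑ k ∈ Finset.range (n + 1), (sph r k : ℝ) ≤ (n + 1) * (C * q' ^ n) := by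
    calc ∑ k ∈ Finset.range (n + 1), (sph r k : ℝ) ≤ ∑ _k ∈ Finset.range (n + 1), C * q' ^ n := by
          apply Finset.sum_le_sum
          intro k hk
          refine (h2 k).trans ?_
          apply mul_le_mul_of_nonneg_left _ (by linarith)
          exact pow_le_pow_right₀ hq1 (by have := Finset.mem_range.1 hk; omega)
      _ = (n + 1) * (C * q' ^ n) := by simp
  rw [div_mul_eq_mul_div, div_le_iff₀ (by linarith)]
  calc c * q ^ n ≤ (n + 1) * (C * q' ^ n) := hn.trans (h9.trans h10)
    _ = (n + 1) ^ 1 * q' ^ n * C := by ring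

end Pool.Agent.Helper44.FMet
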