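import Pool.Agent.Helper44.FMet.Tilt

/-!
# Counting words with a given displacement
-/

namespace Pool.Agent.Helper44.FMet

open Pool.Agent.Helper62.FM

variable {r : ℕ}

/-- Number of words of length `m` with displacement `y`. -/
noncomputable def Nd (m : ℕ) (y : Pt r) : ℝ := num r m (fun w => disp w = y)

theorem Nd_def (m : ℕ) (y : Pt r) : Nd m y = ∑ w ∈ W r m, if disp w = y then (1 : ℝ) else 0 :=
  num_def' m _

theorem Nd_zero (y : Pt r) : Nd 0 y = if y = 0 then 1 else 0 := by
  rw [Nd_def, W_zero, Finset.sum_singleton]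
  by_cases h : y = 0
  · rw [if_pos h, if_pos]; rw [h]; rfl
  · rw [if_neg h, if_neg]
    intro h'
    exact h h'.symm

theorem Nd_succ (m : ℕ) (y : Pt r) : Nd (m + 1) y = ∑ s : Lt r, Nd m (y - step s) := by
  rw [Nd_def, sum_W_succ']
  apply Finset.sum_congr rfl
  intro s _
  rw [Nd_def]
  apply Finset.sum_congr rfl
  intro w _
  have h : disp (s :: w) = y ↔ disp w = y - step s := by
    change step s + disp w = y ↔ _
    rw [eq_sub_iff_add_eq, add_comm]
  simp only [h]

theorem Nd_nonneg (m : ℕ) (y : Pt r) : 0 ≤ Nd m y := num_nonneg _ _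

theorem sig_cons (a : Lt r) (w : Wd r) : sig (a :: w) = sgn a + sig w := by
  rw [← sig_single, ← sig_append]; rfl

theorem sig_parity (w : Wd r) : (sig w + w.length) % 2 = 0 := by
  induction w with
  | nil => simp [sig_nil]
  | cons a w ih =>
    rw [sig_cons, List.length_cons]
    push_cast
    rcases sgn_eq a with h | h <;> rw [h] <;> omega

theorem Nd_odd_zero {m : ℕ} (h : m % 2 = 1) : Nd m (0 : Pt r) = 0 := by
  rw [Nd_def]
  apply Finset.sum_eq_zero
  intro w hw
  rw [mem_W] at hw
  rw [if_neg]
  intro h0
  have h1 := sig_parity w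
  have h2 : sig w = 0 := by unfold sig; rw [h0]; simp
  rw [h2, hw] at h1
  omega

theorem step_self_mul (s : Lt r) : step s s.1 * step s s.1 = 1 := by
  rw [step_apply, if_pos rfl]
  rcases sgn_eq s with h | h <;> rw [h] <;> norm_num

theorem step_mul_nonpos {s t : Lt r} (h : t ≠ s) : step t s.1 * step s s.1 ≤ 0 := by
  rw [step_apply, step_apply, if_pos rfl]
  by_cases h1 : s.1 = t.1
  · rw [if_pos h1]
    rcases eq_or_eq_bar h1 with h2 | h2
    · exact absurd h2.symm h
    · rw [h2]
      have : sgn (bar t) = - sgn t := by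
        unfold sgn bar
        rcases t with ⟨i, c⟩
        cases c <;> simp
      rw [this]
      rcases sgn_eq t with h | h <;> rw [h] <;> norm_num
  · rw [if_neg h1, zero_mul]

/-- Words with positive displacement along the letter `s` contain `s`. -/
theorem Nd_le_mul (m : ℕ) (s : Lt r) : ∀ y : Pt r, 0 < y s.1 * step s s.1 →
    Nd (m + 1) y ≤ (m + 1) * Nd m (y - step s) := by
  induction m with
  | zero =>
    intro y hy
    rw [Nd_succ, Finset.sum_eq_single s]
    · simp
    · intro t _ hts
      rw [Nd_zero, if_neg]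
      intro h
      have h1 : y = step t := by rwa [sub_eq_zero] at h
      subst h1
      have := step_mul_nonpos hts
      omega
    · simp
  | succ m ih =>
    intro y hy
    rw [Nd_succ, ← Finset.add_sum_erase _ _ (Finset.mem_univ s)]
    have h1 : ∑ t ∈ Finset.univ.erase s, Nd (m + 1) (y - step t) ≤
        ∑ t ∈ Finset.univ.erase s, (m + 1) * Nd m (y - step t - step s) := by
      apply Finset.sum_le_sum
      intro t ht
      apply ih
      have hts : t ≠ s := (Finset.mem_erase.1 ht).1
      rw [Pi.sub_apply, sub_mul]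
      have h2 := step_mul_nonpos hts
      linarith
    have h3 : ∑ t ∈ Finset.univ.erase s, (m + 1) * Nd m (y - step t - step s) ≤
        (m + 1) * Nd (m + 1) (y - step s) := by
      rw [Nd_succ, Finset.mul_sum]
      have : ∀ t : Lt r, y - step t - step s = y - step s - step t := fun t => by abel
      simp only [this]
      apply Finset.sum_le_sum_of_subset_of_nonneg (Finset.erase_subset _ _)
      intro t _ _
      have := Nd_nonneg m (y - step s - step t)
      positivity
    push_cast
    linarith

theorem exists_letter {y : Pt r} (hy : y ≠ 0) : ∃ s : Lt r, 0 < y s.1 * step s s.1 := by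
  obtain ⟨i, hi⟩ := Function.ne_iff.1 hy
  rw [Pi.zero_apply] at hi
  rcases lt_or_gt_of_ne hi with h | h
  · refine ⟨(i, false), ?_⟩
    rw [step_apply]; simp [sgn]; exact h
  · refine ⟨(i, true), ?_⟩
    rw [step_apply]; simp [sgn]; exact h

/-- The recursive bound. -/
def U (R : ℝ) : ℕ → ℝ
  | 0 => 1
  | k + 1 => if k % 2 = 0 then (k + 1) * U R k else R * U R k

theorem U_nonneg {R : ℝ} (hR : 0 ≤ R) (k : ℕ) : 0 ≤ U R k := by
  induction k with
  | zero => rw [U]; exact zero_le_one
  | succ k ih =>
    rw [U]
    split_ifs <;> positivity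

theorem Nd_le_U (k : ℕ) : ∀ y : Pt r, Nd k y ≤ U (2 * r) k := by
  induction k with
  | zero =>
    intro y
    rw [Nd_zero, U]
    split_ifs <;> norm_num
  | succ k ih =>
    intro y
    rw [U]
    split_ifs with h
    · by_cases hy : y = 0
      · rw [hy, Nd_odd_zero (by omega)]
        have := U_nonneg (R := 2 * r) (by positivity) k
        positivity
      · obtain ⟨s, hs⟩ := exists_letter hy
        exact (Nd_le_mul k s y hs).trans (mul_le_mul_of_nonneg_left (ih _) (by positivity))
    · rw [Nd_succ]
      calc ∑ s : Lt r, Nd k (y - step s) ≤ ∑ _s : Lt r, U (2 * r) k :=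
            Finset.sum_le_sum (fun s _ => ih _)
        _ = 2 * r * U (2 * r) k := by
            rw [Finset.sum_const, Finset.card_univ, card_letters, nsmul_eq_mul]
            push_cast; ring

/-- double factorials -/
def dd : ℕ → ℕ
  | 0 => 1
  | j + 1 => (2 * j + 1) * dd j

theorem U_even (R : ℝ) (j : ℕ) :
    U R (2 * j) = dd j * R ^ j ∧ U R (2 * j + 1) = dd (j + 1) * R ^ j := by
  induction j with
  | zero => simp [U, dd]
  | succ j ih =>
    have h1 : U R (2 * (j + 1)) = dd (j + 1) * R ^ (j + 1) := by
      rw [show 2 * (j + 1) = (2 * j + 1) + 1 by ring, U, if_neg (by omega), ih.2]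
      ring
    refine ⟨h1, ?_⟩
    rw [U, if_pos (by omega), h1]
    rw [show dd (j + 1 + 1) = (2 * (j + 1) + 1) * dd (j + 1) from rfl]
    push_cast
    ring

theorem dd_pos (j : ℕ) : 1 ≤ dd j := by
  induction j with
  | zero => exact le_rfl
  | succ j ih => rw [dd]; nlinarith

theorem dd_mono {j k : ℕ} (h : j ≤ k) : dd j ≤ dd k := by
  induction k with
  | zero => rw [Nat.le_zero.1 h]
  | succ k ih =>
    rcases Nat.lt_or_ge k j with h1 | h1
    · rw [show j = k + 1 by omega]
    · exact (ih h1).trans (by rw [dd]; exact Nat.le_mul_of_pos_left _ (by omega))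

theorem Nd_le {k j0 : ℕ} (hk : k ≤ 2 * j0) (y : Pt r) : Nd k y ≤ dd j0 * (2 * r) ^ (k / 2) := by
  refine (Nd_le_U k y).trans ?_
  rcases Nat.even_or_odd' k with ⟨j, h | h⟩
  · rw [h, (U_even _ j).1, Nat.mul_div_cancel_left _ (by norm_num)]
    apply mul_le_mul_of_nonneg_right _ (by positivity)
    exact_mod_cast dd_mono (by omega)
  · rw [h, (U_even _ j).2]
    have : (2 * j + 1) / 2 = j := by omega
    rw [this]
    apply mul_le_mul_of_nonneg_right _ (by positivity)
    exact_mod_cast dd_mono (by omega)

/-- A point of norm `j` is the displacement of a word of length `j`. -/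
theorem exists_word_nrm (j : ℕ) : ∀ z : Pt r, nrm z = j → ∃ v : Wd r, v.length = j ∧ disp v = z := by
  induction j with
  | zero =>
    intro z hz
    exact ⟨[], rfl, (eq_zero_of_nrm hz).symm⟩
  | succ j ih =>
    intro z hz
    have hz0 : z ≠ 0 := by
      rintro rfl
      simp [nrm] at hz
    obtain ⟨s, hs⟩ := exists_letter hz0
    have h1 : nrm (z - step s) = j := by
      unfold nrm at hz ⊢
      rw [← Finset.add_sum_erase _ _ (Finset.mem_univ s.1)] at hz ⊢
      have h2 : ∑ k ∈ Finset.univ.erase s.1, ((z - step s) k).natAbs =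
          ∑ k ∈ Finset.univ.erase s.1, (z k).natAbs := by
        apply Finset.sum_congr rfl
        intro k hk
        rw [Pi.sub_apply, step_of_ne (Finset.mem_erase.1 hk).1, sub_zero]
      rw [h2]
      have h3 : ((z - step s) s.1).natAbs + 1 = (z s.1).natAbs := by
        rw [Pi.sub_apply, step_apply, if_pos rfl]
        rw [step_apply, if_pos rfl] at hs
        rcases sgn_eq s with h | h <;> rw [h] at hs ⊢ <;> omega
      omega
    obtain ⟨v, hv, hd⟩ := ih _ h1
    refine ⟨s :: v, by simp [hv], ?_⟩
    change step s + disp v = z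
    rw [hd]; abel

theorem Nd_append_le (m j : ℕ) (y z : Pt r) (v : Wd r) (hv : v.length = j) (hd : disp v = z) :
    Nd m y ≤ Nd (m + j) (y + z) := by
  rw [Nd_def, Nd_def, sum_W_add]
  apply Finset.sum_le_sum
  intro u _
  have h1 : (if disp u = y then (1 : ℝ) else 0) ≤ if disp (u ++ v) = y + z then (1 : ℝ) else 0 := by
    by_cases h : disp u = y
    · rw [if_pos h, if_pos]
      rw [disp_append, h, hd]
    · rw [if_neg h]; split_ifs <;> norm_num
  refine h1.trans ?_
  exact Finset.single_le_sum (f := fun v => if disp (u ++ v) = y + z then (1 : ℝ) else 0)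
    (fun _ _ => by split_ifs <;> norm_num) (mem_W.2 hv)

/-- The number of words of length `m` ending at distance at most `d` from a given point. -/
theorem num_near {m d j0 : ℕ} (hr : 1 ≤ r) (h : m + d ≤ 2 * j0) (y0 : Pt r) :
    num r m (fun w => nrm (y0 + disp w) ≤ d) ≤ (d + 1) * (dd j0 * (2 * r) ^ ((m + d) / 2)) := by
  have hR : (1 : ℝ) ≤ 2 * r := by
    have : (1 : ℝ) ≤ r := by exact_mod_cast hr
    linarith
  have h1 : ∀ j, num r m (fun w => nrm (y0 + disp w) = j) ≤ Nd (m + j) (-y0) := by
    intro j
    rw [num_def', Nd_def, sum_W_add]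
    apply Finset.sum_le_sum
    intro u _
    by_cases hu : nrm (y0 + disp u) = j
    · rw [if_pos hu]
      have h2 : nrm (-(y0 + disp u)) = j := by
        rw [← hu]; unfold nrm
        simp only [Pi.neg_apply, Int.natAbs_neg]
      obtain ⟨v, hv, hd⟩ := exists_word_nrm j _ h2
      have h3 : (if disp (u ++ v) = -y0 then (1 : ℝ) else 0) ≤
          ∑ v ∈ W r j, if disp (u ++ v) = -y0 then (1 : ℝ) else 0 :=
        Finset.single_le_sum (f := fun v => if disp (u ++ v) = -y0 then (1 : ℝ) else 0)
          (fun _ _ => by split_ifs <;> norm_num) (mem_W.2 hv)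
      refine le_trans ?_ h3
      rw [if_pos]
      rw [disp_append, hd]; abel
    · rw [if_neg hu]
      exact Finset.sum_nonneg (fun _ _ => by split_ifs <;> norm_num)
  calc num r m (fun w => nrm (y0 + disp w) ≤ d)
      ≤ ∑ j ∈ Finset.range (d + 1), num r m (fun w => nrm (y0 + disp w) = j) := by
        simp only [num_def']
        rw [Finset.sum_comm]
        apply Finset.sum_le_sum
        intro u _
        split_ifs with hu
        · have h3 : (if nrm (y0 + disp u) = nrm (y0 + disp u) then (1 : ℝ) else 0) ≤
              ∑ j ∈ Finset.range (d + 1), if nrm (y0 + disp u) = j then (1 : ℝ) else 0 :=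
            Finset.single_le_sum (f := fun j => if nrm (y0 + disp u) = j then (1 : ℝ) else 0)
              (fun _ _ => by split_ifs <;> norm_num) (Finset.mem_range.2 (by omega))
          simpa using h3
        · exact Finset.sum_nonneg (fun _ _ => by split_ifs <;> norm_num)
    _ ≤ ∑ _j ∈ Finset.range (d + 1), (dd j0 * (2 * r) ^ ((m + d) / 2) : ℝ) := by
        apply Finset.sum_le_sum
        intro j hj
        rw [Finset.mem_range] at hj
        refine (h1 j).trans ((Nd_le (j0 := j0) (by omega) _).trans ?_)
        apply mul_le_mul_of_nonneg_left _ (by positivity)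
        exact pow_le_pow_right₀ hR (by omega)
    _ = (d + 1) * (dd j0 * (2 * r) ^ ((m + d) / 2)) := by
        rw [Finset.sum_const, Finset.card_range, nsmul_eq_mul]; push_cast; ring

end Pool.Agent.Helper44.FMet
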