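import Pool.Agent.Helper62.FM.Count
import Pool.Agent.Lead.RedInf

/-!
# The tilted recursion for languages given by bad suffixes
-/

namespace Pool.Agent.Helper44.FMet

open Pool.Agent.Helper62.FM

variable {r : ℕ}

/-- The sum of the coordinates of the displacement. -/
def sig (w : Wd r) : ℤ := ∑ k, disp w k

theorem sig_nil : sig ([] : Wd r) = 0 := by simp [sig, disp]

theorem sig_append (u v : Wd r) : sig (u ++ v) = sig u + sig v := by
  unfold sig
  rw [disp_append]
  simp only [Pi.add_apply, Finset.sum_add_distrib]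

theorem sig_single (a : Lt r) : sig [a] = sgn a := by
  unfold sig
  simp only [disp, add_zero]
  rw [Finset.sum_eq_single a.1]
  · rw [step_apply, if_pos rfl]
  · intro k _ hk
    exact step_of_ne hk
  · simp

/-- The tilted weight. -/
noncomputable def rho (t : ℝ) (w : Wd r) : ℝ := t ^ sig w

theorem rho_nil (t : ℝ) : rho t ([] : Wd r) = 1 := by rw [rho, sig_nil, zpow_zero]

theorem rho_pos {t : ℝ} (ht : 0 < t) (w : Wd r) : 0 < rho t w := zpow_pos ht _

theorem rho_append {t : ℝ} (ht : 0 < t) (u v : Wd r) : rho t (u ++ v) = rho t u * rho t v := by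
  rw [rho, sig_append, zpow_add₀ ht.ne']; rfl

theorem rho_one (w : Wd r) : rho 1 w = 1 := by rw [rho, one_zpow]

theorem rho_pow (t : ℝ) (p : ℕ) (w : Wd r) : rho (t ^ p) w = rho t w ^ p := by
  rw [rho, rho, ← zpow_natCast, ← zpow_natCast, ← zpow_mul, ← zpow_mul, mul_comm]

theorem rho_rpow {t : ℝ} (ht : 0 < t) (p : ℝ) (w : Wd r) : rho (t ^ p) w = rho t w ^ p := by
  rw [rho, rho, ← Real.rpow_intCast, ← Real.rpow_intCast, ← Real.rpow_mul ht.le,
    ← Real.rpow_mul ht.le, mul_comm]

/-- The total weight of a letter. -/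
noncomputable def A (r : ℕ) (t : ℝ) : ℝ := r * (t + t⁻¹)

theorem sum_rho_letter (t : ℝ) : ∑ a : Lt r, rho t [a] = A r t := by
  have h : ∀ a : Lt r, rho t [a] = if a.2 then t else t⁻¹ := by
    intro a
    rw [rho, sig_single, sgn]
    split_ifs
    · rw [zpow_one]
    · rw [zpow_neg_one]
  simp only [h]
  rw [Fintype.sum_prod_type]
  simp [A]
  ring

theorem rho_bar (t : ℝ) (v : Wd r) (b : Lt r) :
    rho t ((v ++ [b]) ++ [bar b]) = rho t v := by
  rw [rho, sig_append, sig_append, sig_single, sig_single, rho]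
  congr 1
  have : sgn (bar b) = - sgn b := by
    unfold sgn bar
    rcases b with ⟨i, c⟩
    cases c <;> simp
  rw [this]; ring

/-- The weight of the words of length `n` in a language. -/
noncomputable def Z (L : Wd r → Prop) (t : ℝ) (n : ℕ) : ℝ := by
  classical exact ∑ w ∈ W r n, if L w then rho t w else 0

theorem Z_def (L : Wd r → Prop) [DecidablePred L] (t : ℝ) (n : ℕ) :
    Z L t n = ∑ w ∈ W r n, if L w then rho t w else 0 := by
  unfold Z
  apply Finset.sum_congr rfl
  intro w _
  congr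

theorem Z_nonneg (L : Wd r → Prop) {t : ℝ} (ht : 0 < t) (n : ℕ) : 0 ≤ Z L t n := by
  classical
  rw [Z_def]
  apply Finset.sum_nonneg
  intro w _
  split_ifs
  · exact (rho_pos ht w).le
  · exact le_rfl

theorem Z_mono {L M : Wd r → Prop} {t : ℝ} (ht : 0 < t) {n : ℕ}
    (h : ∀ w, w.length = n → L w → M w) : Z L t n ≤ Z M t n := by
  classical
  rw [Z_def, Z_def]
  apply Finset.sum_le_sum
  intro w hw
  rw [mem_W] at hw
  by_cases hL : L w
  · rw [if_pos hL, if_pos (h w hw hL)]
  · rw [if_neg hL]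
    split_ifs
    · exact (rho_pos ht w).le
    · exact le_rfl

theorem Z_zero (L : Wd r → Prop) (h : L []) (t : ℝ) : Z L t 0 = 1 := by
  classical
  rw [Z_def, W_zero, Finset.sum_singleton, if_pos h, rho_nil]

theorem Z_one_eq_num (L : Wd r → Prop) (n : ℕ) : Z L 1 n = num r n L := by
  classical
  rw [Z_def, num_def]
  simp only [rho_one]

/-- Union bound. -/
theorem Z_or {L M N : Wd r → Prop} {t : ℝ} (ht : 0 < t) {n : ℕ}
    (h : ∀ w, w.length = n → L w → M w ∨ N w) : Z L t n ≤ Z M t n + Z N t n := by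
  classical
  rw [Z_def, Z_def, Z_def, ← Finset.sum_add_distrib]
  apply Finset.sum_le_sum
  intro w hw
  rw [mem_W] at hw
  have hp := (rho_pos ht w).le
  by_cases hL : L w
  · rw [if_pos hL]
    rcases h w hw hL with h1 | h1
    · rw [if_pos h1]
      split_ifs <;> linarith
    · rw [if_pos h1]
      split_ifs <;> linarith
  · rw [if_neg hL]
    split_ifs <;> linarith

/-- `Z` of concatenations. -/
theorem Z_append {M N : Wd r → Prop} {t : ℝ} (ht : 0 < t) {m n : ℕ} :
    (Z (fun w => M (w.take m) ∧ N (w.drop m)) t (m + n)) = Z M t m * Z N t n := by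
  classical
  rw [Z_def, Z_def, Z_def, sum_W_add, Finset.sum_mul_sum]
  apply Finset.sum_congr rfl
  intro u hu
  apply Finset.sum_congr rfl
  intro v hv
  rw [mem_W] at hu
  rw [← hu, List.take_left, List.drop_left, rho_append ht]
  by_cases h1 : M u <;> by_cases h2 : N v <;> simp [h1, h2]

/-- Extensions of words of the language. -/
theorem ext_sum (L : Wd r → Prop) {t : ℝ} (ht : 0 < t) (n : ℕ)
    (hL : ∀ w a, L (w ++ [a]) → L w) :
    A r t * Z L t n = Z L t (n + 1) + Z (fun u => L u.dropLast ∧ ¬ L u) t (n + 1) := by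
  classical
  have e : Z L t (n + 1) + Z (fun u => L u.dropLast ∧ ¬ L u) t (n + 1) =
      ∑ u ∈ W r (n + 1), if L u.dropLast then rho t u else 0 := by
    rw [Z_def, Z_def, ← Finset.sum_add_distrib]
    apply Finset.sum_congr rfl
    intro u hu
    by_cases h1 : L u
    · have h2 : L u.dropLast := by
        rcases List.eq_nil_or_concat u with h3 | ⟨w, a, h3⟩
        · subst h3; exact h1
        · subst h3
          rw [List.concat_eq_append] at h1 ⊢
          rw [List.dropLast_concat]
          exact hL w a h1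
      simp [h1, h2]
    · simp [h1]
  rw [e, sum_W_succ, Z_def, Finset.mul_sum]
  apply Finset.sum_congr rfl
  intro w _
  simp only [List.dropLast_concat, rho_append ht]
  by_cases h : L w
  · simp only [h, if_true]
    rw [← Finset.mul_sum, sum_rho_letter, mul_comm]
  · simp [h]

/-- Contiguous parts of reduced words are reduced. -/
theorem rd_part {u v : Wd r} (h : Rd v) (h' : u <:+: v) : Rd u :=
  Pool.Agent.Lead.isReduced_of_isInf h h'

theorem bar_of_not_rd {v : Wd r} {b c : Lt r} (h1 : Rd (v ++ [b])) (h2 : ¬ Rd ((v ++ [b]) ++ [c])) :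
    c = bar b := by
  by_contra hc
  apply h2
  apply FreeGroup.IsReduced.append_overlap h1 _ (by simp)
  change Rd [b, c]
  rw [rd_cons_cons]
  exact ⟨hc, FreeGroup.IsReduced.singleton⟩

/-- Number of reduced extensions of a nonempty word. -/
theorem card_ext {v : Wd r} (hv : v ≠ []) [DecidablePred fun b : Lt r => Rd (v ++ [b])] :
    (Finset.univ.filter fun b : Lt r => Rd (v ++ [b])).card ≤ 2 * r - 1 := by
  obtain ⟨u, a, rfl⟩ : ∃ u a, v = u ++ [a] :=
    ⟨v.dropLast, v.getLast hv, (List.dropLast_append_getLast hv).symm⟩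
  have h1 : (Finset.univ.filter fun b : Lt r => Rd (u ++ [a] ++ [b])) ⊆
      Finset.univ.erase (bar a) := by
    intro b hb
    rw [Finset.mem_filter] at hb
    rw [Finset.mem_erase]
    refine ⟨?_, Finset.mem_univ _⟩
    intro h
    have h2 : Rd [a, b] := rd_part hb.2 ⟨u, [], by simp⟩
    rw [rd_cons_cons] at h2
    exact h2.1 h
  refine (Finset.card_le_card h1).trans ?_
  rw [Finset.card_erase_of_mem (Finset.mem_univ _), Finset.card_univ, card_letters]

/-- The hypotheses on the language `L` with bad words `B`: the words of `L` are reduced, `L` is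
closed under deleting the last letter, and every reduced one-letter extension of a word of `L`
which is not in `L` ends with a nonempty word from `B`. -/
structure Lang (L B : Wd r → Prop) : Prop where
  nil : L []
  red : ∀ w, L w → Rd w
  pre : ∀ w a, L (w ++ [a]) → L w
  bad : ∀ w a, L w → Rd (w ++ [a]) → ¬ L (w ++ [a]) → ∃ v τ, τ ≠ [] ∧ v ++ τ = w ++ [a] ∧ B τ

theorem Lang.pre_append {L B : Wd r → Prop} (h : Lang L B) (u : Wd r) :
    ∀ v : Wd r, L (u ++ v) → L u := by
  intro v
  induction v using List.reverseRecOn with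
  | nil => intro h1; simpa using h1
  | append_singleton v a ih =>
    intro h1
    apply ih
    apply h.pre _ a
    rwa [List.append_assoc]

theorem nonred_sum {L B : Wd r → Prop} (hLB : Lang L B) {t : ℝ} (ht : 0 < t) (hr : 1 ≤ r) {n : ℕ}
    (hn : 1 ≤ n) :
    Z (fun u => L u.dropLast ∧ ¬ Rd u) t (n + 2) ≤ (2 * r - 1) * Z L t n := by
  classical
  rw [Z_def, Z_def, sum_W_succ, sum_W_succ, Finset.mul_sum]
  apply Finset.sum_le_sum
  intro v hv
  rw [mem_W] at hv
  have hv0 : v ≠ [] := by
    rintro rfl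
    simp at hv; omega
  have hp := (rho_pos ht v).le
  have h1 : ∀ b : Lt r, (∑ c : Lt r, if L (v ++ [b] ++ [c]).dropLast ∧ ¬ Rd (v ++ [b] ++ [c]) then
      rho t (v ++ [b] ++ [c]) else 0) ≤ if L v ∧ Rd (v ++ [b]) then rho t v else 0 := by
    intro b
    rw [Finset.sum_eq_single (bar b)]
    · rw [List.dropLast_concat, rho_bar]
      split_ifs with g1 g2 g2
      · exact le_rfl
      · exact absurd ⟨hLB.pre _ _ g1.1, hLB.red _ g1.1⟩ g2
      · exact hp
      · exact le_rfl
    · intro c _ hc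
      rw [if_neg]
      rintro ⟨g1, g2⟩
      rw [List.dropLast_concat] at g1
      exact hc (bar_of_not_rd (hLB.red _ g1) g2)
    · simp
  refine (Finset.sum_le_sum fun b _ => h1 b).trans ?_
  by_cases hL : L v
  · simp only [hL, true_and, if_true]
    rw [← Finset.sum_filter, Finset.sum_const, nsmul_eq_mul]
    apply mul_le_mul_of_nonneg_right _ hp
    have := card_ext hv0
    have h2 : ((Finset.univ.filter fun b : Lt r => Rd (v ++ [b])).card : ℝ) ≤ ((2 * r - 1 : ℕ) : ℝ) := by
      exact_mod_cast this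
    rw [Nat.cast_sub (by omega)] at h2
    push_cast at h2
    exact h2
  · simp [hL]

theorem nonred_sum_zero {L B : Wd r → Prop} (hLB : Lang L B) {t : ℝ} (ht : 0 < t) :
    Z (fun u => L u.dropLast ∧ ¬ Rd u) t 2 ≤ 2 * r := by
  classical
  have e : Z (fun u => L u.dropLast ∧ ¬ Rd u) t 2 = Z (fun u => L u.dropLast ∧ ¬ Rd u) t (1 + 1) := rfl
  rw [e, Z_def, sum_W_succ, sum_W_one]
  have h1 : ∀ b : Lt r, (∑ c : Lt r, if L ([b] ++ [c]).dropLast ∧ ¬ Rd ([b] ++ [c]) then
      rho t ([b] ++ [c]) else 0) ≤ 1 := by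
    intro b
    rw [Finset.sum_eq_single (bar b)]
    · have := rho_bar (t := t) [] b
      rw [List.nil_append] at this
      rw [this, rho_nil]
      split_ifs
      · exact le_rfl
      · exact zero_le_one
    · intro c _ hc
      rw [if_neg]
      rintro ⟨g1, g2⟩
      exact hc (bar_of_not_rd (v := []) (hLB.red _ g1) g2)
    · simp
  refine (Finset.sum_le_sum fun b _ => h1 b).trans ?_
  rw [Finset.sum_const, Finset.card_univ, card_letters]
  simp

theorem nonred_sum_one {L : Wd r → Prop} {t : ℝ} :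
    Z (fun u => L u.dropLast ∧ ¬ Rd u) t 1 = 0 := by
  classical
  rw [Z_def]
  apply Finset.sum_eq_zero
  intro u hu
  rw [mem_W, List.length_eq_one_iff] at hu
  obtain ⟨a, rfl⟩ := hu
  rw [if_neg]
  rintro ⟨_, h⟩
  exact h FreeGroup.IsReduced.singleton

theorem bad_sum {L B : Wd r → Prop} (hLB : Lang L B) {t : ℝ} (ht : 0 < t) (n : ℕ) :
    Z (fun u => L u.dropLast ∧ Rd u ∧ ¬ L u) t (n + 1) ≤
      ∑ k ∈ Finset.range (n + 1), Z B t (k + 1) * Z L t (n - k) := by
  classical
  have h1 : ∀ k ∈ Finset.range (n + 1), Z B t (k + 1) * Z L t (n - k) =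
      ∑ u ∈ W r (n + 1), if L (u.take (n - k)) ∧ B (u.drop (n - k)) then rho t u else 0 := by
    intro k hk
    rw [Finset.mem_range] at hk
    rw [mul_comm, ← Z_append (M := L) (N := B) ht, show n - k + (k + 1) = n + 1 by omega, Z_def]
  rw [Finset.sum_congr rfl h1, Finset.sum_comm, Z_def]
  apply Finset.sum_le_sum
  intro u hu
  rw [mem_W] at hu
  have hp := (rho_pos ht u).le
  have hnn : ∀ k ∈ Finset.range (n + 1), (0 : ℝ) ≤
      if L (u.take (n - k)) ∧ B (u.drop (n - k)) then rho t u else 0 := by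
    intro k _
    split_ifs
    · exact hp
    · exact le_rfl
  split_ifs with h
  · obtain ⟨g1, g2, g3⟩ := h
    have hu0 : u ≠ [] := by
      rintro rfl; simp at hu
    have hdl := List.dropLast_append_getLast hu0
    rw [← hdl] at g2 g3
    obtain ⟨v, τ, hτ, he, hB⟩ := hLB.bad _ _ g1 g2 g3
    rw [hdl] at he
    have hl : v.length + τ.length = n + 1 := by rw [← hu, ← he, List.length_append]
    have hτ1 : 1 ≤ τ.length := List.length_pos_iff.2 hτ
    have hLv : L v := by
      apply hLB.pre_append v τ.dropLast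
      have : v ++ τ.dropLast = u.dropLast := by
        rw [← he, List.dropLast_append_of_ne_nil hτ]
      rw [this]; exact g1
    refine le_trans ?_ (Finset.single_le_sum hnn (Finset.mem_range.2 (show τ.length - 1 < n + 1 by omega)))
    have e1 : n - (τ.length - 1) = v.length := by omega
    rw [e1, ← he, List.take_left, List.drop_left, if_pos ⟨hLv, hB⟩]
  · exact Finset.sum_nonneg hnn

/-- The tilted recursion. -/
theorem rec_ineq {L B : Wd r → Prop} (hLB : Lang L B) {t : ℝ} (ht : 0 < t) (hr : 1 ≤ r) {n : ℕ}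
    (hn : 1 ≤ n) :
    A r t * Z L t (n + 1) ≤ Z L t (n + 2) + (2 * r - 1) * Z L t n +
      ∑ k ∈ Finset.range (n + 2), Z B t (k + 1) * Z L t (n + 1 - k) := by
  have h1 := ext_sum L ht (n + 1) hLB.pre
  have h2 : Z (fun u => L u.dropLast ∧ ¬ L u) t (n + 1 + 1) ≤
      Z (fun u => L u.dropLast ∧ ¬ Rd u) t (n + 1 + 1) +
      Z (fun u => L u.dropLast ∧ Rd u ∧ ¬ L u) t (n + 1 + 1) := by
    apply Z_or ht
    rintro w _ ⟨g1, g2⟩
    by_cases h : Rd w
    · exact Or.inr ⟨g1, h, g2⟩
    · exact Or.inl ⟨g1, h⟩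
  have h3 := nonred_sum hLB ht hr hn
  have h4 := bad_sum hLB ht (n + 1)
  rw [h1]
  linarith

theorem rec_ineq_zero {L B : Wd r → Prop} (hLB : Lang L B) {t : ℝ} (ht : 0 < t) :
    A r t * Z L t 1 ≤ Z L t 2 + 2 * r +
      ∑ k ∈ Finset.range 2, Z B t (k + 1) * Z L t (1 - k) := by
  have h1 := ext_sum L ht 1 hLB.pre
  have h2 : Z (fun u => L u.dropLast ∧ ¬ L u) t (1 + 1) ≤
      Z (fun u => L u.dropLast ∧ ¬ Rd u) t (1 + 1) +
      Z (fun u => L u.dropLast ∧ Rd u ∧ ¬ L u) t (1 + 1) := by
    apply Z_or ht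
    rintro w _ ⟨g1, g2⟩
    by_cases h : Rd w
    · exact Or.inr ⟨g1, h, g2⟩
    · exact Or.inl ⟨g1, h⟩
  have h3 := nonred_sum_zero hLB ht
  have h4 := bad_sum hLB ht 1
  rw [h1]
  linarith

theorem rec_ineq_start {L B : Wd r → Prop} (hLB : Lang L B) {t : ℝ} (ht : 0 < t) :
    A r t ≤ Z L t 1 + Z B t 1 := by
  have h1 := ext_sum L ht 0 hLB.pre
  have h2 : Z (fun u => L u.dropLast ∧ ¬ L u) t (0 + 1) ≤
      Z (fun u => L u.dropLast ∧ ¬ Rd u) t (0 + 1) +
      Z (fun u => L u.dropLast ∧ Rd u ∧ ¬ L u) t (0 + 1) := by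
    apply Z_or ht
    rintro w _ ⟨g1, g2⟩
    by_cases h : Rd w
    · exact Or.inr ⟨g1, h, g2⟩
    · exact Or.inl ⟨g1, h⟩
  have h3 := nonred_sum_one (L := L) (t := t)
  have h4 := bad_sum hLB ht 0
  rw [Z_zero L hLB.nil, mul_one] at h1
  rw [Finset.sum_range_one, Nat.sub_zero, Z_zero L hLB.nil, mul_one] at h4
  rw [h1]
  simp only [zero_add] at *
  linarith

/-- Growth of the language, from the fixed point inequality. The bad words have length at least
two, and `β ≤ 2 r - 1` or `β ≤ A r t - 1` (the loss from backtracking). -/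
theorem growth {L B : Wd r → Prop} (hLB : Lang L B) {t : ℝ} (ht : 0 < t) (hr : 1 ≤ r)
    (hB1 : ∀ a, ¬ B [a]) {β : ℝ} (hβ : 0 < β)
    (hfix : ∀ N, β + (2 * r - 1) / β + ∑ k ∈ Finset.range N, Z B t (k + 1) / β ^ k ≤ A r t)
    (hstart : 2 * r * β ≤ (2 * r - 1) * A r t) (n : ℕ) :
    β * Z L t n ≤ Z L t (n + 1) := by
  have hB1' : Z B t 1 = 0 := by
    classical
    rw [Z_def]
    apply Finset.sum_eq_zero
    intro u hu
    rw [mem_W, List.length_eq_one_iff] at hu
    obtain ⟨a, rfl⟩ := hu
    rw [if_neg (hB1 a)]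
  have hr' : (1 : ℝ) ≤ r := by exact_mod_cast hr
  have hZ1 : A r t ≤ Z L t 1 := by
    have := rec_ineq_start hLB ht
    rw [hB1'] at this
    linarith
  have hA : β ≤ A r t := by
    have := hfix 0
    simp at this
    have h2 : 0 ≤ (2 * r - 1) / β := div_nonneg (by linarith) hβ.le
    linarith
  induction n using Nat.strong_induction_on with
  | _ n ih =>
    rcases n with _ | n
    · rw [Z_zero L hLB.nil, mul_one]; linarith
    · -- `Z (n + 1 - k) ≤ Z (n + 1) / β ^ k`
      have hdown : ∀ k ≤ n + 1, Z L t (n + 1 - k) * β ^ k ≤ Z L t (n + 1) := by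
        intro k
        induction k with
        | zero => intro _; simp
        | succ k ihk =>
          intro hk
          have h1 := ihk (by omega)
          have h2 := ih (n + 1 - (k + 1)) (by omega)
          rw [show n + 1 - (k + 1) + 1 = n + 1 - k by omega] at h2
          calc Z L t (n + 1 - (k + 1)) * β ^ (k + 1) = (β * Z L t (n + 1 - (k + 1))) * β ^ k := by
                ring
            _ ≤ Z L t (n + 1 - k) * β ^ k := mul_le_mul_of_nonneg_right h2 (by positivity)
            _ ≤ _ := h1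
      have hbadsum : ∑ k ∈ Finset.range (n + 2), Z B t (k + 1) * Z L t (n + 1 - k) ≤
          (∑ k ∈ Finset.range (n + 2), Z B t (k + 1) / β ^ k) * Z L t (n + 1) := by
        rw [Finset.sum_mul]
        apply Finset.sum_le_sum
        intro k hk
        rw [Finset.mem_range] at hk
        have h1 := hdown k (by omega)
        rw [div_mul_eq_mul_div, mul_div_assoc]
        apply mul_le_mul_of_nonneg_left _ (Z_nonneg B ht _)
        rw [le_div_iff₀ (by positivity)]
        exact h1
      have hZn : 0 ≤ Z L t (n + 1) := Z_nonneg L ht _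
      have hf := hfix (n + 2)
      rcases n with _ | n
      · have h1 := rec_ineq_zero hLB ht
        have h2 : 2 * r ≤ (2 * r - 1) / β * Z L t 1 := by
          rw [div_mul_eq_mul_div, le_div_iff₀ hβ]
          have h3 : (2 * r - 1) * A r t ≤ (2 * r - 1) * Z L t 1 :=
            mul_le_mul_of_nonneg_left hZ1 (by linarith)
          linarith
        simp only [zero_add] at *
        nlinarith
      · have h1 := rec_ineq hLB ht hr (n := n + 1) (by omega)
        have h2 : (2 * r - 1) * Z L t (n + 1) ≤ (2 * r - 1) / β * Z L t (n + 1 + 1) := by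
          have h3 := ih (n + 1) (by omega)
          rw [div_mul_eq_mul_div, le_div_iff₀ hβ]
          have h4 : (2 * r - 1) * (β * Z L t (n + 1)) ≤ (2 * r - 1) * Z L t (n + 1 + 1) :=
            mul_le_mul_of_nonneg_left h3 (by linarith)
          linarith
        have h5 : (β + (2 * r - 1) / β + ∑ k ∈ Finset.range (n + 1 + 2), Z B t (k + 1) / β ^ k) *
            Z L t (n + 1 + 1) ≤ A r t * Z L t (n + 1 + 1) := mul_le_mul_of_nonneg_right hf hZn
        nlinarith

/-- Iterated growth. -/
theorem growth_pow {L : Wd r → Prop} {t β : ℝ} (hβ : 0 ≤ β) (h0 : Z L t 0 = 1)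
    (h : ∀ n, β * Z L t n ≤ Z L t (n + 1)) (n : ℕ) : β ^ n ≤ Z L t n := by
  induction n with
  | zero => rw [pow_zero, h0]
  | succ n ih =>
    calc β ^ (n + 1) = β * β ^ n := by ring
      _ ≤ β * Z L t n := mul_le_mul_of_nonneg_left ih hβ
      _ ≤ _ := h n

/-- The Hoelder step. -/
theorem holder {L : Wd r → Prop} {t : ℝ} (ht : 0 < t) {p q : ℝ} (hpq : p.HolderConjugate q)
    (n : ℕ) : Z L t n ≤ Z L (t ^ p) n ^ (1 / p) * Z L 1 n ^ (1 / q) := by
  classical
  rw [Z_def, Z_def, Z_def]
  have h := Real.inner_le_Lp_mul_Lq_of_nonneg (W r n) hpq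
    (f := fun w => if L w then rho t w else 0) (g := fun w => if L w then (1 : ℝ) else 0)
    (fun w _ => by split_ifs; exacts [(rho_pos ht w).le, le_rfl])
    (fun w _ => by split_ifs; exacts [zero_le_one, le_rfl])
  have hp0 : p ≠ 0 := hpq.ne_zero
  have hq0 : q ≠ 0 := hpq.symm.ne_zero
  refine le_trans (le_of_eq ?_) (h.trans (le_of_eq ?_))
  · apply Finset.sum_congr rfl
    intro w _
    split_ifs <;> simp
  · congr 2
    · apply Finset.sum_congr rfl
      intro w _
      split_ifs
      · rw [rho_rpow ht]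
      · exact Real.zero_rpow hp0
    · apply Finset.sum_congr rfl
      intro w _
      split_ifs
      · rw [rho_one, Real.one_rpow]
      · exact Real.zero_rpow hq0

end Pool.Agent.Helper44.FMet
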